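import Pool.Agent.H682.NA.Up
import Pool.Graph.R_seed8.Helper448.Warren

set_option autoImplicit false

/-!
# Assembly
-/

namespace Pool.Agent.H682.NA

open MvPolynomial Matrix

variable {m n : ℕ}

lemma decides_reindex {ι κ : Type*} (e : κ ≃ ι) (F : ι → MvPolynomial (Idx m n) ℝ)
    (hF : Decides F) : Decides (fun k => F (e k)) := by
  obtain ⟨G, hG, h⟩ := hF
  refine ⟨G, hG, fun x y hx hy hxy => h x y hx hy fun i => ?_⟩
  have := hxy (e.symm i)
  simpa using this

/-- **The exact total degree of sign tests.** -/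
theorem isLeast (hm : n < m) :
    IsLeast {d : ℕ | ∃ (N : ℕ) (F : Fin N → MvPolynomial (Idx m n) ℝ), Decides F ∧
      ∑ k, (F k).totalDegree = d} ((n + 1) * m.choose (n + 1) + n * m.choose n) := by
  constructor
  · refine ⟨Fintype.card (Rows m (n + 1) ⊕ Rows m n),
      fun k => ess m n ((Fintype.equivFin _).symm k), decides_reindex _ _ (ess_decides hm), ?_⟩
    rw [← sum_totalDegree_ess]
    exact Equiv.sum_comp (Fintype.equivFin (Rows m (n + 1) ⊕ Rows m n)).symm
      fun e => (ess m n e).totalDegree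
  · rintro d ⟨N, F, hF, rfl⟩
    exact lower hm F hF

open Classical in
/-- **Few sign tests.** -/
theorem few (hm : n < m) :
    ∃ F : Fin (2 * ((2 * m + 3) * (m * n + m))) → MvPolynomial (Idx m n) ℝ, Decides F := by
  set P := (2 * m + 3) * (m * n + m) with hP
  set φ : (Idx m n → ℝ) → (Rows m (n + 1) ⊕ Rows m n → SignType) := fun x e =>
    SignType.sign (eval x (ess m n e)) with hφ
  set S : Finset (Rows m (n + 1) ⊕ Rows m n → SignType) :=
    Finset.univ.filter fun s => ∃ x, eval x (gen m n) ≠ 0 ∧ φ x = s with hS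
  have hScard : S.card ≤ 2 ^ P := by
    have h1 : S.card ≤ (Set.range φ).ncard := by
      rw [← Set.ncard_coe_finset]
      apply Set.ncard_le_ncard _ (Set.toFinite _)
      intro s hs
      rw [Finset.mem_coe, hS, Finset.mem_filter] at hs
      obtain ⟨-, x, -, hx⟩ := hs
      exact ⟨x, hx⟩
    have h2 := Pool.Agent.Helper448.Warren.ncard_sign_patterns_le (ess m n) (n + 1) (by
      intro e
      rw [totalDegree_ess]
      rcases e with s | t <;> simp)
    refine h1.trans (h2.trans ?_)
    have hI : Fintype.card (Idx m n) = m * n + m := by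
      simp
    have hc : Fintype.card (Rows m (n + 1) ⊕ Rows m n) ≤ 2 ^ (m + 1) := by
      rw [Fintype.card_sum, Fintype.card_finset_len, Fintype.card_finset_len, Fintype.card_fin,
        pow_succ]
      have a := Nat.choose_le_two_pow m (n + 1)
      have b := Nat.choose_le_two_pow m n
      omega
    rw [hI, hP, pow_mul]
    apply Nat.pow_le_pow_left
    have hm2 : m + 1 ≤ 2 ^ m := Nat.lt_two_pow_self
    calc 4 * Fintype.card (Rows m (n + 1) ⊕ Rows m n) * (n + 1) + 2
        ≤ 4 * 2 ^ (m + 1) * m + 4 * 2 ^ (m + 1) := by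
          apply Nat.add_le_add
          · exact Nat.mul_le_mul (Nat.mul_le_mul_left _ hc) hm
          · have : 1 ≤ 2 ^ (m + 1) := Nat.one_le_two_pow
            omega
      _ = 4 * 2 ^ (m + 1) * (m + 1) := by ring
      _ ≤ 4 * 2 ^ (m + 1) * 2 ^ m := Nat.mul_le_mul_left _ hm2
      _ = 2 ^ (2 * m + 3) := by
          have : 2 * m + 3 = 2 + (m + 1) + m := by ring
          rw [this, pow_add 2 (2 + (m + 1)) m, pow_add 2 2 (m + 1)]
          norm_num
  obtain ⟨R, hR⟩ := exists_separating S P hScard (by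
    intro s hs i
    rw [hS, Finset.mem_filter] at hs
    obtain ⟨-, x, hx, rfl⟩ := hs
    rw [hφ]
    simp only [ne_eq, sign_eq_zero_iff]
    exact ess_ne_of_gen hx i)
  refine ⟨fun k => ∏ e ∈ R k, ess m n e, gen m n, gen_ne_zero, ?_⟩
  intro x y hx hy hxy
  have hprod : ∀ (z : Idx m n → ℝ) (k : Fin (2 * P)),
      SignType.sign (eval z (∏ e ∈ R k, ess m n e)) = ∏ e ∈ R k, φ z e := by
    intro z k
    rw [map_prod]
    exact map_prod (signHom : ℝ →*₀ SignType) _ _
  have hmem : ∀ z : Idx m n → ℝ, eval z (gen m n) ≠ 0 → φ z ∈ S := by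
    intro z hz
    rw [hS, Finset.mem_filter]
    exact ⟨Finset.mem_univ _, z, hz, rfl⟩
  have h := hR (φ x) (hmem x hx) (φ y) (hmem y hy) (fun k => by
    have := hxy k
    simp only at this
    rw [hprod, hprod] at this
    exact this)
  exact ess_decides' hm x y hx hy fun e => congrFun h e

end Pool.Agent.H682.NA
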