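import Pool.Agent.H682.NA.Wall

set_option autoImplicit false

/-!
# The two kinds of walls of linear feasibility
-/

namespace Pool.Agent.H682.NA

open MvPolynomial Matrix

variable {m n : ℕ}

/-- The entries of `A` and of `b`. -/
abbrev Idx (m n : ℕ) : Type := (Fin m × Fin n) ⊕ Fin m

/-- Feasibility of `A x ≥ b`. -/
def Feas (a : Idx m n → ℝ) : Prop :=
  ∃ x : Fin n → ℝ, ∀ i, a (Sum.inr i) ≤ ∑ j, a (Sum.inl (i, j)) * x j

/-! ### Minors of `(A | b)` -/

/-- The entries of the rows `S` of `(A | b)`. -/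
def vB (S : Fin (n + 1) → Fin m) (i j : Fin (n + 1)) : Idx m n :=
  Fin.snoc (α := fun _ => Idx m n) (fun j : Fin n => Sum.inl (S i, j)) (Sum.inr (S i)) j

lemma vB_castSucc (S : Fin (n + 1) → Fin m) (i : Fin (n + 1)) (j : Fin n) :
    vB S i j.castSucc = Sum.inl (S i, j) := by
  unfold vB
  rw [Fin.snoc_castSucc]

lemma vB_last (S : Fin (n + 1) → Fin m) (i : Fin (n + 1)) :
    vB S i (Fin.last n) = Sum.inr (S i) := by
  unfold vB
  rw [Fin.snoc_last]

lemma vB_inj (S : Fin (n + 1) → Fin m) (hS : Function.Injective S) :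
    Function.Injective fun p : Fin (n + 1) × Fin (n + 1) => vB S p.1 p.2 := by
  rintro ⟨i, j⟩ ⟨i', j'⟩ h
  simp only at h
  induction j using Fin.lastCases with
  | last =>
    induction j' using Fin.lastCases with
    | last =>
      rw [vB_last, vB_last] at h
      rw [hS (Sum.inr_injective h)]
    | cast j' =>
      rw [vB_last, vB_castSucc] at h
      exact absurd h (by simp)
  | cast j =>
    induction j' using Fin.lastCases with
    | last =>
      rw [vB_last, vB_castSucc] at h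
      exact absurd h (by simp)
    | cast j' =>
      rw [vB_castSucc, vB_castSucc] at h
      have := Sum.inl_injective h
      simp only [Prod.mk.injEq] at this
      rw [hS this.1, this.2]

/-- The neighbourhood of the base point of the wall of an `(n+1)`-minor. -/
def UB (S : Fin (n + 1) → Fin m) : Set (Idx m n → ℝ) :=
  {z | (∀ i, 0 < (vmat (vB S) z).adjugate (Fin.last n) i) ∧
    ∀ r, r ∉ Set.range S → ∑ j : Fin n, z (Sum.inl (r, j)) *
      (vmat (vB S) z).adjugate j.castSucc (Fin.last n) +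
      z (Sum.inr r) * (vmat (vB S) z).adjugate (Fin.last n) (Fin.last n) < 0}

lemma isOpen_UB (S : Fin (n + 1) → Fin m) : IsOpen (UB S) := by
  apply IsOpen.inter
  · have : {z : Idx m n → ℝ | ∀ i, 0 < (vmat (vB S) z).adjugate (Fin.last n) i} =
        ⋂ i, {z | 0 < (vmat (vB S) z).adjugate (Fin.last n) i} := by
      ext z
      simp
    show IsOpen {z : Idx m n → ℝ | ∀ i, 0 < (vmat (vB S) z).adjugate (Fin.last n) i}
    rw [this]
    exact isOpen_iInter_of_finite fun i =>
      isOpen_lt continuous_const (continuous_adj (vB S) (Fin.last n) i)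
  · show IsOpen {z : Idx m n → ℝ | ∀ r, r ∉ Set.range S → ∑ j : Fin n, z (Sum.inl (r, j)) *
      (vmat (vB S) z).adjugate j.castSucc (Fin.last n) +
      z (Sum.inr r) * (vmat (vB S) z).adjugate (Fin.last n) (Fin.last n) < 0}
    have : {z : Idx m n → ℝ | ∀ r, r ∉ Set.range S → ∑ j : Fin n, z (Sum.inl (r, j)) *
      (vmat (vB S) z).adjugate j.castSucc (Fin.last n) +
      z (Sum.inr r) * (vmat (vB S) z).adjugate (Fin.last n) (Fin.last n) < 0} =
        ⋂ r, ⋂ (_ : r ∉ Set.range S), {z | ∑ j : Fin n, z (Sum.inl (r, j)) *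
      (vmat (vB S) z).adjugate j.castSucc (Fin.last n) +
      z (Sum.inr r) * (vmat (vB S) z).adjugate (Fin.last n) (Fin.last n) < 0} := by
      ext z
      simp only [Set.mem_iInter]
      rfl
    rw [this]
    refine isOpen_iInter_of_finite fun r => isOpen_iInter_of_finite fun _ => ?_
    refine isOpen_lt ?_ continuous_const
    refine Continuous.add ?_ ?_
    · refine continuous_finsetSum _ fun j _ => ?_
      exact (continuous_apply _).mul (continuous_adj (vB S) _ _)
    · exact (continuous_apply _).mul (continuous_adj (vB S) _ _)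

lemma UB_feas (S : Fin (n + 1) → Fin m) (z : Idx m n → ℝ) (hz : z ∈ UB S)
    (hd : (vmat (vB S) z).det < 0) : Feas z := by
  obtain ⟨h1, h2⟩ := hz
  set M := vmat (vB S) z with hM
  set c := M.adjugate (Fin.last n) (Fin.last n) with hc
  have hc0 : 0 < c := h1 _
  refine ⟨fun j => - M.adjugate j.castSucc (Fin.last n) / c, ?_⟩
  intro r
  have key : ∑ j : Fin n, z (Sum.inl (r, j)) * M.adjugate j.castSucc (Fin.last n) +
      z (Sum.inr r) * c ≤ 0 := by
    by_cases hr : r ∈ Set.range S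
    · obtain ⟨i, rfl⟩ := hr
      have h3 := congrFun (congrFun (mul_adjugate M) i) (Fin.last n)
      rw [mul_apply, Fin.sum_univ_castSucc] at h3
      have hM1 : ∀ j : Fin n, M i j.castSucc = z (Sum.inl (S i, j)) := fun j =>
        congrArg z (vB_castSucc S i j)
      have hM2 : M i (Fin.last n) = z (Sum.inr (S i)) := congrArg z (vB_last S i)
      simp only [hM1, hM2] at h3
      rw [h3, Matrix.smul_apply, one_apply, smul_eq_mul]
      split_ifs
      · linarith
      · linarith
    · exact (h2 r hr).le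
  have e : ∑ j, z (Sum.inl (r, j)) * (- M.adjugate j.castSucc (Fin.last n) / c) =
      - (∑ j : Fin n, z (Sum.inl (r, j)) * M.adjugate j.castSucc (Fin.last n)) / c := by
    rw [← Finset.sum_neg_distrib, Finset.sum_div]
    exact Finset.sum_congr rfl fun j _ => by ring
  rw [e, le_div_iff₀ hc0]
  linarith

lemma UB_infeas (S : Fin (n + 1) → Fin m) (z : Idx m n → ℝ) (hz : z ∈ UB S)
    (hd : 0 < (vmat (vB S) z).det) : ¬ Feas z := by
  rintro ⟨x, hx⟩
  obtain ⟨h1, -⟩ := hz
  set M := vmat (vB S) z with hM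
  have e1 : ∑ i, M.adjugate (Fin.last n) i * z (Sum.inr (S i)) = M.det := by
    have h3 := congrFun (congrFun (adjugate_mul M) (Fin.last n)) (Fin.last n)
    rw [mul_apply, Matrix.smul_apply, one_apply_eq, smul_eq_mul, mul_one] at h3
    rw [← h3]
    refine Finset.sum_congr rfl fun i _ => ?_
    simp only [hM, vmat, of_apply, vB_last]
  have e2 : ∀ j : Fin n, ∑ i, M.adjugate (Fin.last n) i * z (Sum.inl (S i, j)) = 0 := by
    intro j
    have h3 := congrFun (congrFun (adjugate_mul M) (Fin.last n)) j.castSucc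
    rw [mul_apply, Matrix.smul_apply, one_apply_ne (Fin.castSucc_lt_last j).ne', smul_zero] at h3
    rw [← h3]
    refine Finset.sum_congr rfl fun i _ => ?_
    simp only [hM, vmat, of_apply, vB_castSucc]
  have e3 : ∑ i, M.adjugate (Fin.last n) i * z (Sum.inr (S i)) ≤
      ∑ i, M.adjugate (Fin.last n) i * ∑ j, z (Sum.inl (S i, j)) * x j :=
    Finset.sum_le_sum fun i _ => mul_le_mul_of_nonneg_left (hx (S i)) (h1 i).le
  have e4 : ∑ i, M.adjugate (Fin.last n) i * ∑ j, z (Sum.inl (S i, j)) * x j = 0 := by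
    simp only [Finset.mul_sum]
    rw [Finset.sum_comm]
    apply Finset.sum_eq_zero
    intro j _
    have : ∀ i, M.adjugate (Fin.last n) i * (z (Sum.inl (S i, j)) * x j) =
        M.adjugate (Fin.last n) i * z (Sum.inl (S i, j)) * x j := fun i => by ring
    rw [Finset.sum_congr rfl fun i _ => this i, ← Finset.sum_mul, e2, zero_mul]
  linarith

/-- The base point of the wall. -/
noncomputable def zB (S : Fin (n + 1) → Fin m) : Idx m n → ℝ
  | Sum.inl (r, j) => Function.extend S (fun i => baseMat n i j.castSucc) (fun _ => 0) r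
  | Sum.inr r => Function.extend S (fun _ => (0 : ℝ)) (fun _ => -1) r

lemma zB_inl (S : Fin (n + 1) → Fin m) (r : Fin m) (j : Fin n) : zB S (Sum.inl (r, j)) =
    Function.extend S (fun i => baseMat n i j.castSucc) (fun _ => 0) r := rfl

lemma zB_inr (S : Fin (n + 1) → Fin m) (r : Fin m) : zB S (Sum.inr r) =
    Function.extend S (fun _ => (0 : ℝ)) (fun _ => -1) r := rfl

lemma vmat_zB (S : Fin (n + 1) → Fin m) (hS : Function.Injective S) :
    vmat (vB S) (zB S) = baseMat n := by
  ext i j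
  unfold vmat
  rw [of_apply]
  induction j using Fin.lastCases with
  | last =>
    rw [vB_last, zB_inr, hS.extend_apply]
    simp [baseMat]
  | cast j =>
    rw [vB_castSucc, zB_inl, hS.extend_apply]

lemma zB_mem (S : Fin (n + 1) → Fin m) (hS : Function.Injective S) : zB S ∈ UB S := by
  refine ⟨fun i => ?_, fun r hr => ?_⟩
  · rw [vmat_zB S hS, adj_base, if_pos rfl]
    exact one_pos
  · rw [vmat_zB S hS]
    have h1 : ∑ j : Fin n, zB S (Sum.inl (r, j)) * (baseMat n).adjugate j.castSucc (Fin.last n) =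
        0 := by
      apply Finset.sum_eq_zero
      intro j _
      rw [adj_base, if_neg (Fin.castSucc_lt_last j).ne, mul_zero]
    rw [h1, adj_base, if_pos rfl]
    have h2 : zB S (Sum.inr r) = -1 := by
      rw [zB_inr, Function.extend_apply' _ _ _ (by simpa using hr)]
    rw [h2]
    norm_num

/-- The walls given by the minors of `(A | b)`. -/
theorem wallB (S : Fin (n + 1) → Fin m) (hS : Function.Injective S)
    {ι : Type*} [Fintype ι] (F : ι → MvPolynomial (Idx m n) ℝ) (G : MvPolynomial (Idx m n) ℝ)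
    (hG : G ≠ 0) (hdec : ∀ x y, eval x G ≠ 0 → eval y G ≠ 0 →
      (∀ k, SignType.sign (eval x (F k)) = SignType.sign (eval y (F k))) → (Feas x ↔ Feas y))
    (H : MvPolynomial (Idx m n) ℝ) (hH : ∀ k, F k ≠ 0 → F k ∣ H) : gdet (vB S) ∣ H := by
  have hv := vB_inj S hS
  refine wall (irreducible_gdet n (vB S) hv) (gdet_pivot (vB S)) (pf_mem _ hv) (pg_mem _ hv)
    (fun z => ¬ Feas z) (UB S) (isOpen_UB S) (zB S) (zB_mem S hS) ?_ ?_ ?_ ?_ F G hG ?_ H hH
  · rw [eval_gdet', vmat_zB S hS, det_base]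
  · intro x hx
    rw [eval_pf]
    exact (hx.1 _).ne'
  · intro x hx h
    rw [eval_gdet'] at h
    exact UB_infeas S x hx h
  · intro x hx h
    rw [eval_gdet'] at h
    exact not_not_intro (UB_feas S x hx h)
  · intro x y hx hy h
    exact not_congr (hdec x y hx hy h)

/-! ### Minors of `A` -/

section A

variable {k : ℕ}

/-- The entries of the rows `T` of `A`. -/
def vA (T : Fin n → Fin m) (i j : Fin n) : Idx m n := Sum.inl (T i, j)

lemma vA_inj (T : Fin n → Fin m) (hT : Function.Injective T) :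
    Function.Injective fun p : Fin n × Fin n => vA T p.1 p.2 := by
  rintro ⟨i, j⟩ ⟨i', j'⟩ h
  have h' : (Sum.inl (T i, j) : Idx m n) = Sum.inl (T i', j') := h
  have := Sum.inl_injective h'
  simp only [Prod.mk.injEq] at this
  rw [hT this.1, this.2]

/-- The row of `A`. -/
def rowA (z : Idx m n → ℝ) (r : Fin m) : Fin n → ℝ := fun j => z (Sum.inl (r, j))

/-- The neighbourhood of the base point of the wall of an `n`-minor of `A`. -/
def UA (T : Fin (k + 1) → Fin m) (r0 : Fin m) : Set (Idx m (k + 1) → ℝ) :=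
  {z | (0 < (vmat (vA T) z).adjugate (Fin.last k) (Fin.last k) ∧
    ∀ i, 0 < (rowA z r0 ᵥ* (vmat (vA T) z).adjugate) i) ∧
    ∀ r, r ∉ Set.range T → z (Sum.inr r) * (vmat (vA T) z).det <
      rowA z r ⬝ᵥ ((vmat (vA T) z).adjugate *ᵥ fun i => z (Sum.inr (T i)))}

lemma continuous_vmat {σ : Type*} (v : Fin (k + 1) → Fin (k + 1) → σ) :
    Continuous fun z : σ → ℝ => vmat v z :=
  continuous_matrix fun _ _ => continuous_apply _

lemma continuous_rowA (r : Fin m) : Continuous fun z : Idx m n → ℝ => rowA z r :=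
  continuous_pi fun _ => continuous_apply _

lemma isOpen_UA (T : Fin (k + 1) → Fin m) (r0 : Fin m) : IsOpen (UA T r0) := by
  have hadj : Continuous fun z : Idx m (k + 1) → ℝ => (vmat (vA T) z).adjugate :=
    (continuous_vmat (vA T)).matrix_adjugate
  apply IsOpen.inter
  · apply IsOpen.inter
    · exact isOpen_lt continuous_const (continuous_adj (vA T) _ _)
    · show IsOpen {z : Idx m (k + 1) → ℝ | ∀ i, 0 < (rowA z r0 ᵥ* (vmat (vA T) z).adjugate) i}
      have : {z : Idx m (k + 1) → ℝ | ∀ i, 0 < (rowA z r0 ᵥ* (vmat (vA T) z).adjugate) i} =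
          ⋂ i, {z | 0 < (rowA z r0 ᵥ* (vmat (vA T) z).adjugate) i} := by
        ext z
        simp
      rw [this]
      refine isOpen_iInter_of_finite fun i => isOpen_lt continuous_const ?_
      have h1 : Continuous fun z : Idx m (k + 1) → ℝ => rowA z r0 ᵥ* (vmat (vA T) z).adjugate :=
        Continuous.matrix_vecMul (continuous_rowA r0) hadj
      exact (continuous_apply i).comp h1
  · show IsOpen {z : Idx m (k + 1) → ℝ | ∀ r, r ∉ Set.range T →
      z (Sum.inr r) * (vmat (vA T) z).det <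
      rowA z r ⬝ᵥ ((vmat (vA T) z).adjugate *ᵥ fun i => z (Sum.inr (T i)))}
    have : {z : Idx m (k + 1) → ℝ | ∀ r, r ∉ Set.range T →
      z (Sum.inr r) * (vmat (vA T) z).det <
      rowA z r ⬝ᵥ ((vmat (vA T) z).adjugate *ᵥ fun i => z (Sum.inr (T i)))} =
        ⋂ r, ⋂ (_ : r ∉ Set.range T), {z | z (Sum.inr r) * (vmat (vA T) z).det <
      rowA z r ⬝ᵥ ((vmat (vA T) z).adjugate *ᵥ fun i => z (Sum.inr (T i)))} := by
      ext z
      simp only [Set.mem_iInter]
      rfl
    rw [this]
    refine isOpen_iInter_of_finite fun r => isOpen_iInter_of_finite fun _ => ?_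
    refine isOpen_lt ?_ ?_
    · exact (continuous_apply _).mul (continuous_vmat (vA T)).matrix_det
    · refine Continuous.dotProduct (continuous_rowA r) ?_
      exact Continuous.matrix_mulVec hadj (continuous_pi fun i => continuous_apply _)

lemma row_vmat (T : Fin (k + 1) → Fin m) (z : Idx m (k + 1) → ℝ) (x : Fin (k + 1) → ℝ)
    (i : Fin (k + 1)) : (vmat (vA T) z *ᵥ x) i = ∑ j, z (Sum.inl (T i, j)) * x j := rfl

lemma UA_feas (T : Fin (k + 1) → Fin m) (r0 : Fin m) (z : Idx m (k + 1) → ℝ) (hz : z ∈ UA T r0)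
    (hd : 0 < (vmat (vA T) z).det) : Feas z := by
  obtain ⟨-, h2⟩ := hz
  set N := vmat (vA T) z with hN
  set b : Fin (k + 1) → ℝ := fun i => z (Sum.inr (T i)) with hb
  refine ⟨(N.det)⁻¹ • (N.adjugate *ᵥ b), ?_⟩
  intro r
  by_cases hr : r ∈ Set.range T
  · obtain ⟨i, rfl⟩ := hr
    have h3 : (N *ᵥ ((N.det)⁻¹ • (N.adjugate *ᵥ b))) i = b i := by
      rw [mulVec_smul, mulVec_mulVec, mul_adjugate, smul_mulVec, one_mulVec, smul_smul,
        inv_mul_cancel₀ hd.ne', one_smul]
    rw [← row_vmat, ← hN, h3]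
  · have h3 := h2 r hr
    have h4 : ∑ j, z (Sum.inl (r, j)) * ((N.det)⁻¹ • (N.adjugate *ᵥ b)) j =
        (rowA z r ⬝ᵥ (N.adjugate *ᵥ b)) / N.det := by
      have : ∑ j, z (Sum.inl (r, j)) * ((N.det)⁻¹ • (N.adjugate *ᵥ b)) j =
        rowA z r ⬝ᵥ ((N.det)⁻¹ • (N.adjugate *ᵥ b)) := rfl
      rw [this, dotProduct_smul, smul_eq_mul]
      field_simp
    rw [h4, le_div_iff₀ hd]
    exact h3.le

lemma UA_infeas (T : Fin (k + 1) → Fin m) (r0 : Fin m) (hr0 : r0 ∉ Set.range T)
    (z : Idx m (k + 1) → ℝ) (hz : z ∈ UA T r0) (hd : (vmat (vA T) z).det < 0) : ¬ Feas z := by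
  rintro ⟨x, hx⟩
  obtain ⟨⟨-, h1⟩, h2⟩ := hz
  set N := vmat (vA T) z with hN
  set b : Fin (k + 1) → ℝ := fun i => z (Sum.inr (T i)) with hb
  set y := rowA z r0 ᵥ* N.adjugate with hy
  have e1 : y ⬝ᵥ b ≤ y ⬝ᵥ (N *ᵥ x) := by
    apply Finset.sum_le_sum
    intro i _
    apply mul_le_mul_of_nonneg_left _ (h1 i).le
    exact hx (T i)
  have e2 : y ⬝ᵥ (N *ᵥ x) = N.det * (rowA z r0 ⬝ᵥ x) := by
    rw [dotProduct_mulVec, hy, vecMul_vecMul, adjugate_mul, vecMul_smul, vecMul_one,
      smul_dotProduct, smul_eq_mul]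
  have e3 : y ⬝ᵥ b = rowA z r0 ⬝ᵥ (N.adjugate *ᵥ b) := by
    rw [hy, dotProduct_mulVec]
  have e4 := h2 r0 hr0
  have e5 : z (Sum.inr r0) ≤ rowA z r0 ⬝ᵥ x := hx r0
  rw [← e3] at e4
  nlinarith

/-- The base point of the wall. -/
noncomputable def zA (T : Fin (k + 1) → Fin m) : Idx m (k + 1) → ℝ
  | Sum.inl (r, j) => Function.extend T (fun i => baseMat k i j)
      (fun _ => if j = Fin.last k then 1 else 0) r
  | Sum.inr r => Function.extend T (fun _ => (1 : ℝ)) (fun _ => 0) r

lemma zA_inl (T : Fin (k + 1) → Fin m) (r : Fin m) (j : Fin (k + 1)) : zA T (Sum.inl (r, j)) =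
    Function.extend T (fun i => baseMat k i j) (fun _ => if j = Fin.last k then 1 else 0) r := rfl

lemma zA_inr (T : Fin (k + 1) → Fin m) (r : Fin m) : zA T (Sum.inr r) =
    Function.extend T (fun _ => (1 : ℝ)) (fun _ => 0) r := rfl

lemma vmat_zA (T : Fin (k + 1) → Fin m) (hT : Function.Injective T) :
    vmat (vA T) (zA T) = baseMat k := by
  ext i j
  show zA T (Sum.inl (T i, j)) = _
  rw [zA_inl, hT.extend_apply]

lemma rowA_zA (T : Fin (k + 1) → Fin m) (r : Fin m) (hr : r ∉ Set.range T) :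
    rowA (zA T) r = Pi.single (Fin.last k) 1 := by
  ext j
  show zA T (Sum.inl (r, j)) = _
  rw [zA_inl, Function.extend_apply' _ _ _ (by simpa using hr), Pi.single_apply]

lemma zA_mem (T : Fin (k + 1) → Fin m) (hT : Function.Injective T) (r0 : Fin m)
    (hr0 : r0 ∉ Set.range T) : zA T ∈ UA T r0 := by
  refine ⟨⟨?_, fun i => ?_⟩, fun r hr => ?_⟩
  · rw [vmat_zA T hT, adj_base, if_pos rfl]
    exact one_pos
  · rw [vmat_zA T hT, rowA_zA T r0 hr0, single_one_vecMul]
    show 0 < (baseMat k).adjugate (Fin.last k) i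
    rw [adj_base, if_pos rfl]
    exact one_pos
  · rw [vmat_zA T hT, det_base, mul_zero, rowA_zA T r hr, single_one_dotProduct]
    have : (fun i => zA T (Sum.inr (T i))) = fun _ => (1 : ℝ) := by
      ext i
      rw [zA_inr, hT.extend_apply]
    rw [this]
    show 0 < ∑ i, (baseMat k).adjugate (Fin.last k) i * 1
    apply Finset.sum_pos
    · intro i _
      rw [adj_base, if_pos rfl]
      norm_num
    · exact ⟨Fin.last k, Finset.mem_univ _⟩

/-- The walls given by the minors of `A`. -/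
theorem wallA (T : Fin (k + 1) → Fin m) (hT : Function.Injective T) (hm : k + 1 < m)
    {ι : Type*} [Fintype ι] (F : ι → MvPolynomial (Idx m (k + 1)) ℝ)
    (G : MvPolynomial (Idx m (k + 1)) ℝ)
    (hG : G ≠ 0) (hdec : ∀ x y, eval x G ≠ 0 → eval y G ≠ 0 →
      (∀ k, SignType.sign (eval x (F k)) = SignType.sign (eval y (F k))) → (Feas x ↔ Feas y))
    (H : MvPolynomial (Idx m (k + 1)) ℝ) (hH : ∀ k, F k ≠ 0 → F k ∣ H) : gdet (vA T) ∣ H := by
  have hv := vA_inj T hT
  obtain ⟨r0, hr0⟩ : ∃ r0, r0 ∉ Set.range T := by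
    by_contra hcon
    push Not at hcon
    have hsurj : Function.Surjective T := hcon
    have := Fintype.card_le_of_surjective T hsurj
    simp at this
    omega
  refine wall (irreducible_gdet k (vA T) hv) (gdet_pivot (vA T)) (pf_mem _ hv) (pg_mem _ hv)
    (fun z => Feas z) (UA T r0) (isOpen_UA T r0) (zA T) (zA_mem T hT r0 hr0) ?_ ?_ ?_ ?_ F G hG
    hdec H hH
  · rw [eval_gdet', vmat_zA T hT, det_base]
  · intro x hx
    rw [eval_pf]
    exact hx.1.1.ne'
  · intro x hx h
    rw [eval_gdet'] at h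
    exact UA_feas T r0 x hx h
  · intro x hx h
    rw [eval_gdet'] at h
    exact UA_infeas T r0 hr0 x hx h

end A

end Pool.Agent.H682.NA
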