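import Mathlib

set_option autoImplicit false

/-!
# The generic determinant is irreducible; zeros of linear-in-one-variable irreducible polynomials
-/

namespace Pool.Agent.H682.NA

open MvPolynomial Matrix

variable {σ : Type*}

/-- The determinant of a matrix of variables. -/
noncomputable def gdet {k : ℕ} (v : Fin k → Fin k → σ) : MvPolynomial σ ℝ :=
  (Matrix.of fun i j => (X (v i j) : MvPolynomial σ ℝ)).det

lemma det_mem {ι : Type*} [Fintype ι] [DecidableEq ι] (B : Subalgebra ℝ (MvPolynomial σ ℝ))
    (M : Matrix ι ι (MvPolynomial σ ℝ)) (h : ∀ i j, M i j ∈ B) : M.det ∈ B := by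
  rw [det_apply]
  refine B.sum_mem fun s _ => ?_
  have h1 : ∏ i, M (s i) i ∈ B := B.prod_mem fun i _ => h _ _
  rcases Int.units_eq_one_or (Equiv.Perm.sign s) with h2 | h2
  · rw [h2, one_smul]; exact h1
  · rw [h2, Units.neg_smul, one_smul]; exact B.neg_mem h1

lemma notMem_vars_of {i : σ} {p : MvPolynomial σ ℝ} (h : p ∈ supported ℝ ({i}ᶜ : Set σ)) :
    i ∉ p.vars := by
  intro hi
  have := mem_supported.1 h (Finset.mem_coe.2 hi)
  simp at this

lemma X_mem {i j : σ} (h : j ≠ i) : (X j : MvPolynomial σ ℝ) ∈ supported ℝ ({i}ᶜ : Set σ) := by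
  rw [X_mem_supported]
  simpa using h

lemma eval_gdet {k : ℕ} (v : Fin k → Fin k → σ) (x : σ → ℝ) :
    eval x (gdet v) = (Matrix.of fun i j => x (v i j)).det := by
  unfold gdet
  rw [RingHom.map_det]
  congr 1
  ext i j
  simp

/-- **The generic determinant is irreducible.** -/
theorem irreducible_gdet (k : ℕ) : ∀ v : Fin (k + 1) → Fin (k + 1) → σ,
    (Function.Injective fun p : Fin (k + 1) × Fin (k + 1) => v p.1 p.2) →
    Irreducible (gdet v) := by
  induction k with
  | zero =>
    intro v _
    have : gdet v = 1 * X (v 0 0) + 0 := by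
      unfold gdet
      simp
    rw [this]
    exact irreducible_mul_X_add 1 0 (v 0 0) one_ne_zero (by simp) (by simp)
      (by intro d hd _; exact isUnit_of_dvd_one hd)
  | succ k ih =>
    intro v hv
    have hvi : ∀ i j i' j', v i j = v i' j' → i = i' ∧ j = j' := by
      intro i j i' j' h
      have := hv (a₁ := (i, j)) (a₂ := (i', j')) h
      simpa using this
    set M : Matrix (Fin (k + 2)) (Fin (k + 2)) (MvPolynomial σ ℝ) :=
      Matrix.of fun i j => (X (v i j) : MvPolynomial σ ℝ) with hM
    set f : MvPolynomial σ ℝ := gdet (fun i j : Fin (k + 1) => v i.succ j.succ) with hf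
    set g : MvPolynomial σ ℝ := ∑ j : Fin (k + 1), (-1) ^ ((j.succ : Fin (k + 2)) : ℕ) *
      M 0 j.succ * (M.submatrix Fin.succ (j.succ).succAbove).det with hg
    have hdet : gdet v = f * X (v 0 0) + g := by
      have h1 : gdet v = M.det := rfl
      rw [h1, det_succ_row_zero, Fin.sum_univ_succ]
      congr 1
      have : M.submatrix Fin.succ (Fin.succAbove 0) =
          Matrix.of fun i j : Fin (k + 1) => (X (v i.succ j.succ) : MvPolynomial σ ℝ) := by
        ext i j
        simp [hM]
      rw [this, hf]
      simp only [Fin.val_zero, pow_zero, one_mul]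
      rw [mul_comm]
      rfl
    have hfi : Irreducible f := ih _ (by
      rintro ⟨i, j⟩ ⟨i', j'⟩ h
      have := hvi _ _ _ _ h
      simpa [Fin.succ_inj] using this)
    have hfv : v 0 0 ∉ f.vars := by
      apply notMem_vars_of
      rw [hf]
      apply det_mem
      intro i j
      apply X_mem
      intro h
      exact absurd (hvi _ _ _ _ h).1 (Fin.succ_ne_zero i)
    have hgv : v 0 0 ∉ g.vars := by
      apply notMem_vars_of
      rw [hg]
      refine Subalgebra.sum_mem _ fun j _ => ?_
      refine Subalgebra.mul_mem _ (Subalgebra.mul_mem _ (Subalgebra.pow_mem _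
        (Subalgebra.neg_mem _ (Subalgebra.one_mem _)) _) ?_) ?_
      · apply X_mem
        intro h
        exact absurd (hvi _ _ _ _ h).2 (Fin.succ_ne_zero j)
      · apply det_mem
        intro i j'
        apply X_mem
        intro h
        exact absurd (hvi _ _ _ _ h).1 (Fin.succ_ne_zero i)
    rw [hdet]
    apply irreducible_mul_X_add f g (v 0 0) hfi.ne_zero hfv hgv
    rw [hfi.isRelPrime_iff_not_dvd]
    intro hdvd
    -- a point with `f = 0` and nonzero determinant
    set x : σ → ℝ := Function.extend (fun p : Fin (k + 2) × Fin (k + 2) => v p.1 p.2)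
      (fun p => if Equiv.swap (0 : Fin (k + 2)) 1 p.1 = p.2 then 1 else 0) (fun _ => 0) with hx
    have hxv : ∀ i j, x (v i j) = if Equiv.swap (0 : Fin (k + 2)) 1 i = j then 1 else 0 := by
      intro i j
      exact hv.extend_apply (fun p => if Equiv.swap (0 : Fin (k + 2)) 1 p.1 = p.2 then (1 : ℝ) else 0)
        (fun _ => 0) (i, j)
    have h1 : eval x f = 0 := by
      rw [hf, eval_gdet]
      apply det_eq_zero_of_row_eq_zero 0
      intro j
      simp only [of_apply]
      rw [hxv, if_neg]
      intro h
      have e : ((0 : Fin (k + 1)).succ : Fin (k + 2)) = 1 := rfl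
      rw [e, Equiv.swap_apply_right] at h
      exact absurd h.symm (Fin.succ_ne_zero j)
    have h2 : eval x (gdet v) ≠ 0 := by
      rw [eval_gdet]
      have : (Matrix.of fun i j => x (v i j)) =
          ((Equiv.swap (0 : Fin (k + 2)) 1).toPEquiv.toMatrix : Matrix _ _ ℝ) := by
        ext i j
        rw [of_apply, hxv, PEquiv.toMatrix_apply]
        simp [Equiv.toPEquiv_apply]
      rw [this, det_permutation]
      have := Int.units_eq_one_or (Equiv.Perm.sign (Equiv.swap (0 : Fin (k + 2)) 1))
      rcases this with h | h <;> rw [h] <;> simp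
    apply h2
    obtain ⟨c, hc⟩ := hdvd
    rw [hdet, hc, map_add, map_mul, map_mul, h1]
    simp

/-! ### Zeros -/

variable {p f g : MvPolynomial σ ℝ} {i : σ}

lemma pseudo_div (hp : p = f * X i + g) (hf : f ∈ supported ℝ ({i}ᶜ : Set σ))
    (hg : g ∈ supported ℝ ({i}ᶜ : Set σ)) (h : MvPolynomial σ ℝ) :
    ∃ (d : ℕ) (q r : MvPolynomial σ ℝ), f ^ d * h = q * p + r ∧
      r ∈ supported ℝ ({i}ᶜ : Set σ) := by
  induction h using MvPolynomial.induction_on with
  | C a => exact ⟨0, 0, C a, by simp, Subalgebra.algebraMap_mem _ a⟩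
  | add h h' ih ih' =>
    obtain ⟨d, q, r, e, hr⟩ := ih
    obtain ⟨d', q', r', e', hr'⟩ := ih'
    refine ⟨d + d', f ^ d' * q + f ^ d * q', f ^ d' * r + f ^ d * r', ?_, ?_⟩
    · calc f ^ (d + d') * (h + h') = f ^ d' * (f ^ d * h) + f ^ d * (f ^ d' * h') := by ring
        _ = _ := by rw [e, e']; ring
    · exact Subalgebra.add_mem _ (Subalgebra.mul_mem _ (Subalgebra.pow_mem _ hf _) hr)
        (Subalgebra.mul_mem _ (Subalgebra.pow_mem _ hf _) hr')
  | mul_X h j ih =>
    obtain ⟨d, q, r, e, hr⟩ := ih
    by_cases hj : j = i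
    · subst hj
      refine ⟨d + 1, f * X j * q + r, -(r * g), ?_, ?_⟩
      · calc f ^ (d + 1) * (h * X j) = f * X j * (f ^ d * h) := by ring
          _ = f * X j * (q * p + r) := by rw [e]
          _ = f * X j * q * p + r * (f * X j + g) - r * g := by ring
          _ = f * X j * q * p + r * p - r * g := by rw [← hp]
          _ = _ := by ring
      · exact Subalgebra.neg_mem _ (Subalgebra.mul_mem _ hr hg)
    · refine ⟨d, q * X j, r * X j, ?_, Subalgebra.mul_mem _ hr (X_mem hj)⟩
      calc f ^ d * (h * X j) = (f ^ d * h) * X j := by ring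
        _ = _ := by rw [e]; ring

/-- A polynomial which vanishes on a nonempty open set is zero. -/
lemma eq_zero_of_open [Finite σ] (r : MvPolynomial σ ℝ) (U : Set (σ → ℝ)) (hU : IsOpen U)
    (hne : U.Nonempty) (h : ∀ x ∈ U, eval x r = 0) : r = 0 := by
  have := Fintype.ofFinite σ
  obtain ⟨z, hz⟩ := hne
  obtain ⟨ε, hε, hball⟩ := Metric.isOpen_iff.1 hU z hz
  refine MvPolynomial.funext_set (s := fun i => Metric.ball (z i) ε) (fun i => ?_) ?_
  · have : (Metric.ball (z i) ε) = Set.Ioo (z i - ε) (z i + ε) := Real.ball_eq_Ioo _ _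
    rw [this]
    exact Set.Ioo_infinite (by linarith)
  · intro x hx
    rw [map_zero]
    apply h
    apply hball
    rw [Metric.mem_ball, dist_pi_lt_iff hε]
    intro i
    exact hx i (Set.mem_univ i)

lemma eval_congr_supported {q : MvPolynomial σ ℝ} (hq : q ∈ supported ℝ ({i}ᶜ : Set σ))
    (x y : σ → ℝ) (h : ∀ j, j ≠ i → x j = y j) : eval x q = eval y q := by
  apply eval₂Hom_congr' rfl _ rfl
  intro j hj _
  apply h
  rintro rfl
  exact notMem_vars_of hq hj

/-- **Zeros near a point.** The irreducible polynomial `p` is linear in the variable `i`. If `p`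
does not divide `h` then `h` does not vanish identically on the zeros of `p` near `z`. -/
theorem exists_zero [Finite σ] [DecidableEq σ] (hirr : Irreducible p) (hp : p = f * X i + g)
    (hf : f ∈ supported ℝ ({i}ᶜ : Set σ)) (hg : g ∈ supported ℝ ({i}ᶜ : Set σ))
    (h : MvPolynomial σ ℝ) (hh : ¬ p ∣ h) (U : Set (σ → ℝ)) (hU : IsOpen U) (z : σ → ℝ)
    (hz : z ∈ U) (hpz : eval z p = 0) (hfz : eval z f ≠ 0) :
    ∃ z' ∈ U, eval z' p = 0 ∧ eval z' h ≠ 0 := by
  by_contra hcon
  push Not at hcon
  have hprime : Prime p := irreducible_iff_prime.1 hirr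
  obtain ⟨d, q, r, e, hr⟩ := pseudo_div hp hf hg h
  -- the projection to the hypersurface
  set φ : (σ → ℝ) → (σ → ℝ) := fun x => Function.update x i (- eval x g / eval x f) with hφ
  have hcf : Continuous fun x : σ → ℝ => eval x f := f.continuous_eval
  have hcg : Continuous fun x : σ → ℝ => eval x g := g.continuous_eval
  have hφz : φ z = z := by
    have h1 : eval z f * z i + eval z g = 0 := by
      rw [← hpz, hp]
      simp
    have h2 : - eval z g / eval z f = z i := by
      rw [div_eq_iff hfz]
      linarith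
    rw [hφ]
    simp only
    rw [h2, Function.update_eq_self]
  have hcφ : ContinuousAt φ z := by
    have : ContinuousAt (fun x : σ → ℝ => - eval x g / eval x f) z :=
      (hcg.continuousAt.neg).div hcf.continuousAt hfz
    exact continuousAt_id.update i this
  have hnhds : ∀ᶠ x in nhds z, φ x ∈ U ∧ eval x f ≠ 0 := by
    refine Filter.Eventually.and ?_ ?_
    · have : U ∈ nhds (φ z) := by
        rw [hφz]
        exact hU.mem_nhds hz
      exact hcφ this
    · exact hcf.continuousAt.eventually_ne hfz
  obtain ⟨V, hV1, hV2, hV3⟩ := eventually_nhds_iff.1 hnhds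
  have hr0 : r = 0 := by
    apply eq_zero_of_open r V hV2 ⟨z, hV3⟩
    intro x hx
    obtain ⟨h1, h2⟩ := hV1 x hx
    have hφx : ∀ j, j ≠ i → φ x j = x j := fun j hj => by
      simp only [hφ]
      rw [Function.update_of_ne hj]
    have ef := eval_congr_supported hf (φ x) x hφx
    have eg := eval_congr_supported hg (φ x) x hφx
    have er := eval_congr_supported hr (φ x) x hφx
    have ep : eval (φ x) p = 0 := by
      rw [hp, map_add, map_mul, eval_X, ef, eg]
      simp only [hφ, Function.update_self]
      field_simp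
      ring
    have eh := hcon (φ x) h1 ep
    have := congrArg (eval (φ x)) e
    rw [map_mul, map_add, map_mul, ep, eh, er] at this
    simpa using this.symm
  rw [hr0, add_zero] at e
  have hdvd : p ∣ f ^ d * h := ⟨q, by rw [e, mul_comm]⟩
  rcases hprime.dvd_or_dvd hdvd with h1 | h1
  · have h2 := hprime.dvd_of_dvd_pow h1
    obtain ⟨c, hc⟩ := h2
    apply hfz
    rw [hc, map_mul, hpz, zero_mul]
  · exact hh h1

end Pool.Agent.H682.NA
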