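import Pool.Agent.H682.NA.Geo

set_option autoImplicit false

/-!
# The essential minors and the lower bound
-/

namespace Pool.Agent.H682.NA

open MvPolynomial Matrix

variable {m n : ℕ}

lemma totalDegree_gdet {σ : Type*} {k : ℕ} (v : Fin k → Fin k → σ) (h : gdet v ≠ 0) :
    (gdet v).totalDegree = k := by
  apply IsHomogeneous.totalDegree _ h
  unfold gdet
  rw [det_apply]
  apply IsHomogeneous.sum
  intro s _
  have h1 : (∏ i, (Matrix.of fun i j => (X (v i j) : MvPolynomial σ ℝ)) (s i) i).IsHomogeneous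
      k := by
    have := IsHomogeneous.prod Finset.univ
      (fun i => (Matrix.of fun i j => (X (v i j) : MvPolynomial σ ℝ)) (s i) i) (fun _ => 1)
      (fun i _ => isHomogeneous_X ℝ _)
    simpa using this
  rcases Int.units_eq_one_or (Equiv.Perm.sign s) with h2 | h2
  · rw [h2, one_smul]; exact h1
  · rw [h2, Units.neg_smul, one_smul]; exact h1.neg

/-- Sets of `k` rows. -/
abbrev Rows (m k : ℕ) : Type := {s : Finset (Fin m) // s.card = k}

/-- The rows of `s` in increasing order. -/
def emb {k : ℕ} (s : Rows m k) : Fin k → Fin m := s.1.orderEmbOfFin s.2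

lemma emb_inj {k : ℕ} (s : Rows m k) : Function.Injective (emb s) :=
  (s.1.orderEmbOfFin s.2).injective

lemma emb_mem {k : ℕ} (s : Rows m k) (i : Fin k) : emb s i ∈ s.1 :=
  Finset.orderEmbOfFin_mem _ _ _

lemma exists_emb {k : ℕ} (s : Rows m k) (r : Fin m) (hr : r ∈ s.1) : ∃ i, emb s i = r := by
  have : r ∈ Set.range (s.1.orderEmbOfFin s.2) := by
    rw [Finset.range_orderEmbOfFin]
    exact hr
  exact this

lemma exists_row {k : ℕ} (s s' : Rows m k) (h : s ≠ s') : ∃ i, ∀ j, emb s j ≠ emb s' i := by
  have h1 : ¬ s'.1 ⊆ s.1 := by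
    intro hsub
    apply h
    apply Subtype.ext
    exact (Finset.eq_of_subset_of_card_le hsub (by rw [s.2, s'.2])).symm
  obtain ⟨r, hr, hr'⟩ := Finset.not_subset.1 h1
  obtain ⟨i, rfl⟩ := exists_emb s' r hr
  exact ⟨i, fun j hj => hr' (hj ▸ emb_mem s j)⟩

/-- The essential minors: the maximal minors of `(A | b)` and those of `A`. -/
noncomputable def ess (m n : ℕ) : Rows m (n + 1) ⊕ Rows m n → MvPolynomial (Idx m n) ℝ
  | Sum.inl s => gdet (vB (emb s))
  | Sum.inr t => gdet (vA (emb t))

/-- A test point. -/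
noncomputable def pB (s : Rows m (n + 1)) : Idx m n → ℝ
  | Sum.inl (r, j) => if emb s j.castSucc = r then 1 else 0
  | Sum.inr r => if emb s (Fin.last n) = r then 1 else 0

/-- A test point. -/
noncomputable def pA (t : Rows m n) : Idx m n → ℝ
  | Sum.inl (r, j) => if emb t j = r then 1 else 0
  | Sum.inr _ => 0

lemma pB_vB (s : Rows m (n + 1)) (S : Fin (n + 1) → Fin m) (i j : Fin (n + 1)) :
    pB s (vB S i j) = if emb s j = S i then 1 else 0 := by
  induction j using Fin.lastCases with
  | last => rw [vB_last]; rfl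
  | cast j => rw [vB_castSucc]; rfl

lemma eval_pB_self (s : Rows m (n + 1)) : eval (pB s) (gdet (vB (emb s))) = 1 := by
  rw [eval_gdet]
  have : (Matrix.of fun i j => pB s (vB (emb s) i j)) =
      (1 : Matrix (Fin (n + 1)) (Fin (n + 1)) ℝ) := by
    ext i j
    rw [of_apply, pB_vB, one_apply]
    by_cases h : i = j
    · rw [if_pos h, if_pos (by rw [h])]
    · rw [if_neg h, if_neg (fun e => h (emb_inj s e).symm)]
  rw [this, det_one]

lemma eval_pB_ne (s s' : Rows m (n + 1)) (h : s ≠ s') :
    eval (pB s) (gdet (vB (emb s'))) = 0 := by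
  rw [eval_gdet]
  obtain ⟨i, hi⟩ := exists_row s s' h
  apply det_eq_zero_of_row_eq_zero i
  intro j
  rw [of_apply, pB_vB, if_neg (hi j)]

lemma eval_pA_self (t : Rows m n) : eval (pA t) (gdet (vA (emb t))) = 1 := by
  rw [eval_gdet]
  have : (Matrix.of fun i j => pA t (vA (emb t) i j)) = (1 : Matrix (Fin n) (Fin n) ℝ) := by
    ext i j
    rw [of_apply, one_apply]
    show (if emb t j = emb t i then (1 : ℝ) else 0) = _
    by_cases h : i = j
    · rw [if_pos h, if_pos (by rw [h])]
    · rw [if_neg h, if_neg (fun e => h (emb_inj t e).symm)]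
  rw [this, det_one]

lemma eval_pA_ne (t t' : Rows m n) (h : t ≠ t') : eval (pA t) (gdet (vA (emb t'))) = 0 := by
  rw [eval_gdet]
  obtain ⟨i, hi⟩ := exists_row t t' h
  apply det_eq_zero_of_row_eq_zero i
  intro j
  show (if emb t j = emb t' i then (1 : ℝ) else 0) = _
  rw [if_neg (hi j)]

lemma eval_pA_B (t : Rows m n) (s : Rows m (n + 1)) :
    eval (pA t) (gdet (vB (emb s))) = 0 := by
  rw [eval_gdet]
  apply det_eq_zero_of_column_eq_zero (Fin.last n)
  intro i
  rw [of_apply, vB_last]
  rfl

lemma ess_ne_zero (e : Rows m (n + 1) ⊕ Rows m n) : ess m n e ≠ 0 := by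
  intro h
  rcases e with s | t
  · have := eval_pB_self s
    change eval (pB s) (ess m n (Sum.inl s)) = 1 at this
    rw [h, map_zero] at this
    exact zero_ne_one this
  · have := eval_pA_self t
    change eval (pA t) (ess m n (Sum.inr t)) = 1 at this
    rw [h, map_zero] at this
    exact zero_ne_one this

lemma relPrime_of_eval {σ : Type*} {p q : MvPolynomial σ ℝ} (hp : Irreducible p) (z : σ → ℝ)
    (h1 : eval z p = 0) (h2 : eval z q ≠ 0) : IsRelPrime p q := by
  rw [hp.isRelPrime_iff_not_dvd]
  rintro ⟨c, hc⟩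
  apply h2
  rw [hc, map_mul, h1, zero_mul]

lemma irreducible_B (s : Rows m (n + 1)) : Irreducible (gdet (vB (emb s))) :=
  irreducible_gdet n _ (vB_inj _ (emb_inj s))

lemma ess_pairwise : Pairwise (Function.onFun IsRelPrime (ess m n)) := by
  intro e e' hne
  show IsRelPrime (ess m n e) (ess m n e')
  have hAB : ∀ (s : Rows m (n + 1)) (t : Rows m n),
      IsRelPrime (gdet (vB (emb s))) (gdet (vA (emb t))) := fun s t =>
    relPrime_of_eval (irreducible_B s) (pA t) (eval_pA_B t s)
      (by rw [eval_pA_self]; exact one_ne_zero)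
  rcases e with s | t
  · rcases e' with s' | t'
    · have h : s ≠ s' := fun h => hne (by rw [h])
      have h1 : eval (pB s') (gdet (vB (emb s'))) ≠ 0 := by
        rw [eval_pB_self]; exact one_ne_zero
      exact relPrime_of_eval (irreducible_B s) (pB s') (eval_pB_ne s' s h.symm) h1
    · exact hAB s t'
  · rcases e' with s' | t'
    · exact (hAB s' t).symm
    · have h : t ≠ t' := fun h => hne (by rw [h])
      rcases n with _ | k
      · exfalso
        apply h
        apply Subtype.ext
        rw [Finset.card_eq_zero.1 t.2, Finset.card_eq_zero.1 t'.2]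
      · have h1 : eval (pA t') (gdet (vA (emb t'))) ≠ 0 := by
          rw [eval_pA_self]; exact one_ne_zero
        exact relPrime_of_eval (irreducible_gdet k _ (vA_inj _ (emb_inj t))) (pA t')
          (eval_pA_ne t' t h.symm) h1

lemma totalDegree_prod {σ ι : Type*} (s : Finset ι) (f : ι → MvPolynomial σ ℝ)
    (hf : ∀ i ∈ s, f i ≠ 0) : (∏ i ∈ s, f i).totalDegree = ∑ i ∈ s, (f i).totalDegree := by
  classical
  induction s using Finset.induction_on with
  | empty => simp
  | insert a s ha ih =>
    rw [Finset.prod_insert ha, Finset.sum_insert ha, totalDegree_mul_of_isDomain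
      (hf a (Finset.mem_insert_self a s)) (Finset.prod_ne_zero_iff.2 fun i hi =>
        hf i (Finset.mem_insert_of_mem hi)), ih fun i hi => hf i (Finset.mem_insert_of_mem hi)]

lemma totalDegree_ess (e : Rows m (n + 1) ⊕ Rows m n) :
    (ess m n e).totalDegree = Sum.elim (fun _ => n + 1) (fun _ => n) e := by
  have h := ess_ne_zero e
  rcases e with s | t
  · exact totalDegree_gdet _ h
  · exact totalDegree_gdet _ h

lemma sum_totalDegree_ess : ∑ e, (ess m n e).totalDegree =
    (n + 1) * m.choose (n + 1) + n * m.choose n := by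
  rw [Finset.sum_congr rfl fun e _ => totalDegree_ess e, Fintype.sum_sum_type]
  simp only [Sum.elim_inl, Sum.elim_inr, Finset.sum_const, Finset.card_univ, smul_eq_mul,
    Fintype.card_finset_len, Fintype.card_fin]
  ring

/-- The family `F` of polynomials decides feasibility on generic inputs: outside the zero set of
some nonzero polynomial, the signs of its members determine whether the system is feasible. -/
def Decides {ι : Type*} (F : ι → MvPolynomial (Idx m n) ℝ) : Prop :=
  ∃ G : MvPolynomial (Idx m n) ℝ, G ≠ 0 ∧ ∀ x y, eval x G ≠ 0 → eval y G ≠ 0 →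
    (∀ k, SignType.sign (eval x (F k)) = SignType.sign (eval y (F k))) → (Feas x ↔ Feas y)

/-- **The essential minors divide the product of the nonzero tests.** -/
theorem ess_dvd (hm : n < m) {ι : Type*} [Fintype ι] (F : ι → MvPolynomial (Idx m n) ℝ)
    (hF : Decides F) (H : MvPolynomial (Idx m n) ℝ) (hH : ∀ k, F k ≠ 0 → F k ∣ H)
    (e : Rows m (n + 1) ⊕ Rows m n) : ess m n e ∣ H := by
  obtain ⟨G, hG, hdec⟩ := hF
  rcases e with s | t
  · exact wallB (emb s) (emb_inj s) F G hG hdec H hH
  · rcases n with _ | k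
    · have : gdet (vA (emb t)) = 1 := by
        unfold gdet
        simp
      show gdet (vA (emb t)) ∣ H
      rw [this]
      exact one_dvd _
    · exact wallA (emb t) (emb_inj t) hm F G hG hdec H hH

/-- **The lower bound.** -/
theorem lower (hm : n < m) {ι : Type*} [Fintype ι] (F : ι → MvPolynomial (Idx m n) ℝ)
    (hF : Decides F) :
    (n + 1) * m.choose (n + 1) + n * m.choose n ≤ ∑ k, (F k).totalDegree := by
  classical
  set s : Finset ι := Finset.univ.filter fun k => F k ≠ 0 with hs
  have hs0 : ∀ k ∈ s, F k ≠ 0 := fun k hk => (Finset.mem_filter.1 hk).2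
  set H := ∏ k ∈ s, F k with hH
  have hH0 : H ≠ 0 := Finset.prod_ne_zero_iff.2 hs0
  have hdvd : ∏ e, ess m n e ∣ H := by
    have h1 : ∀ e, ess m n e ∣ H := ess_dvd hm F hF H fun k hk =>
      Finset.dvd_prod_of_mem _ (Finset.mem_filter.2 ⟨Finset.mem_univ k, hk⟩)
    exact Fintype.prod_dvd_of_isRelPrime (s := ess m n) (z := H) ess_pairwise h1
  calc (n + 1) * m.choose (n + 1) + n * m.choose n = ∑ e, (ess m n e).totalDegree :=
        sum_totalDegree_ess.symm
    _ = (∏ e, ess m n e).totalDegree := (totalDegree_prod _ _ fun e _ => ess_ne_zero e).symm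
    _ ≤ H.totalDegree := totalDegree_le_of_dvd_of_isDomain hdvd hH0
    _ = ∑ k ∈ s, (F k).totalDegree := totalDegree_prod _ _ hs0
    _ ≤ ∑ k, (F k).totalDegree := Finset.sum_le_sum_of_subset (Finset.filter_subset _ _)

end Pool.Agent.H682.NA
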