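import Pool.Agent.H682.NA.Sparse
import Pool.Graph.R_seed8.H558R2.Count

set_option autoImplicit false

/-!
# Decision trees with sign tests: degree, number of monomials and number of variables
-/

namespace Pool.Agent.H682.NA

open MvPolynomial Matrix
open Pool.Agent.H558R2 (QT wmat colEquiv colEntry pexp polyMat polyMinor)

/-! ### Determinants with unit columns -/

section unit

variable {σ : Type*} {m : ℕ}

/-- The monomial of a permutation. -/
noncomputable def umon (V : Finset (Fin m)) (w : Fin m → Fin m → σ) (s : Equiv.Perm (Fin m)) :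
    σ →₀ ℕ := ∑ j ∈ V, Finsupp.single (w (s j) j) 1

/-- A matrix of monomials of degree one with unit columns outside of `V`. -/
structure UnitCols (M : Matrix (Fin m) (Fin m) (MvPolynomial σ ℝ)) (V : Finset (Fin m))
    (w : Fin m → Fin m → σ) (e : Fin m → ℝ) (r : Fin m → Fin m) : Prop where
  var : ∀ i j, j ∈ V → M i j = C (e j) * X (w i j)
  unit : ∀ i j, j ∉ V → M i j = if i = r j then 1 else 0

variable {M : Matrix (Fin m) (Fin m) (MvPolynomial σ ℝ)} {V : Finset (Fin m)}
  {w : Fin m → Fin m → σ} {e : Fin m → ℝ} {r : Fin m → Fin m}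

lemma UnitCols.coeff (h : UnitCols M V w e r) (a : σ →₀ ℕ) (ha : coeff a M.det ≠ 0) :
    ∃ s : Equiv.Perm (Fin m), (∀ j, j ∉ V → s j = r j) ∧ a = umon V w s := by
  classical
  by_contra hcon
  push Not at hcon
  apply ha
  rw [det_apply, coeff_sum]
  apply Finset.sum_eq_zero
  intro s _
  have key : MvPolynomial.coeff a (∏ j, M (s j) j) = 0 := by
    by_cases hs : ∀ j, j ∉ V → s j = r j
    · have h1 : ∏ j, M (s j) j = C (∏ j ∈ V, e j) * monomial (umon V w s) 1 := by
        rw [← Finset.prod_mul_prod_compl V]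
        have h2 : ∏ j ∈ V, M (s j) j = C (∏ j ∈ V, e j) * monomial (umon V w s) 1 := by
          unfold umon
          rw [monomial_sum_one, map_prod, ← Finset.prod_mul_distrib]
          exact Finset.prod_congr rfl fun j hj => h.var _ _ hj
        have h3 : ∏ j ∈ Vᶜ, M (s j) j = 1 := by
          apply Finset.prod_eq_one
          intro j hj
          have hj' := Finset.mem_compl.1 hj
          rw [h.unit _ _ hj', if_pos (hs j hj')]
        rw [h2, h3, mul_one]
      rw [h1, coeff_C_mul, coeff_monomial, if_neg (fun e => hcon s hs e.symm), mul_zero]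
    · push Not at hs
      obtain ⟨j, hj, hj'⟩ := hs
      rw [Finset.prod_eq_zero (Finset.mem_univ j), coeff_zero]
      rw [h.unit _ _ hj, if_neg hj']
  rcases Int.units_eq_one_or (Equiv.Perm.sign s) with h2 | h2
  · rw [h2, one_smul]; exact key
  · rw [h2, Units.neg_smul, one_smul, coeff_neg, key, neg_zero]

lemma card_perm_le (V : Finset (Fin m)) (r : Fin m → Fin m) :
    (Finset.univ.filter fun s : Equiv.Perm (Fin m) => ∀ j, j ∉ V → s j = r j).card ≤
      V.card.factorial := by
  classical
  set S := Finset.univ.filter fun s : Equiv.Perm (Fin m) => ∀ j, j ∉ V → s j = r j with hS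
  rcases S.eq_empty_or_nonempty with h | ⟨s0, h0⟩
  · rw [h]
    simp
  · have hs0 := (Finset.mem_filter.1 h0).2
    have h1 : S.card ≤ Fintype.card {f : Equiv.Perm (Fin m) // ∀ a, ¬ a ∈ V → f a = a} := by
      rw [← Fintype.card_coe]
      refine Fintype.card_le_of_injective (fun s => ⟨s0⁻¹ * s.1, ?_⟩) ?_
      · intro a ha
        have hs := (Finset.mem_filter.1 s.2).2 a ha
        rw [Equiv.Perm.mul_apply, hs, ← hs0 a ha]
        exact Equiv.symm_apply_apply s0 a
      · intro s t hst
        have := congrArg Subtype.val hst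
        simp only [mul_right_inj] at this
        exact Subtype.ext this
    refine h1.trans (le_of_eq ?_)
    rw [← Fintype.card_congr (Equiv.Perm.subtypeEquivSubtypePerm (fun a : Fin m => a ∈ V)),
      Fintype.card_perm, Fintype.card_coe]

lemma UnitCols.support_card (h : UnitCols M V w e r) : M.det.support.card ≤ V.card.factorial := by
  classical
  refine le_trans ?_ (card_perm_le V r)
  refine le_trans (Finset.card_le_card ?_) (Finset.card_image_le (f := umon V w))
  intro a ha
  obtain ⟨s, hs, rfl⟩ := h.coeff a (mem_support_iff.1 ha)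
  exact Finset.mem_image.2 ⟨s, Finset.mem_filter.2 ⟨Finset.mem_univ s, hs⟩, rfl⟩

lemma UnitCols.totalDegree_le (h : UnitCols M V w e r) : M.det.totalDegree ≤ V.card := by
  unfold totalDegree
  apply Finset.sup_le
  intro a ha
  obtain ⟨s, -, rfl⟩ := h.coeff a (mem_support_iff.1 ha)
  have h1 : (umon V w s).degree = V.card := by
    unfold umon
    rw [map_sum]
    simp [Finsupp.degree_single]
  have h2 : ((umon V w s).sum fun _ e => e) = (umon V w s).degree := rfl
  rw [h2, h1]

lemma UnitCols.vars_card (h : UnitCols M V w e r) : M.det.vars.card ≤ V.card ^ 2 := by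
  classical
  by_cases h0 : M.det = 0
  · rw [h0, vars_0]
    simp
  · obtain ⟨a0, ha0⟩ := support_nonempty.2 h0
    obtain ⟨s0, hs0, -⟩ := h.coeff a0 (mem_support_iff.1 ha0)
    have hsub : M.det.vars ⊆ ((V.image s0) ×ˢ V).image fun p => w p.1 p.2 := by
      intro x hx
      rw [mem_vars_iff_mem_support] at hx
      obtain ⟨a, ha, hxa⟩ := hx
      obtain ⟨s, hs, rfl⟩ := h.coeff a (mem_support_iff.1 ha)
      have h1 : umon V w s x ≠ 0 := Finsupp.mem_support_iff.1 hxa
      unfold umon at h1
      rw [Finsupp.finsetSum_apply] at h1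
      obtain ⟨j, hj, hj'⟩ := Finset.exists_ne_zero_of_sum_ne_zero h1
      rw [Finsupp.single_apply] at hj'
      have hx' : w (s j) j = x := by
        by_contra hne
        rw [if_neg hne] at hj'
        exact hj' rfl
      rw [Finset.mem_image]
      refine ⟨(s j, j), Finset.mem_product.2 ⟨?_, hj⟩, hx'⟩
      rw [Finset.mem_image]
      refine ⟨s0⁻¹ (s j), ?_, Equiv.apply_symm_apply s0 _⟩
      by_contra hcon
      have h2 := hs0 _ hcon
      have h2' : s0 (s0⁻¹ (s j)) = s j := Equiv.apply_symm_apply s0 _
      rw [h2'] at h2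
      have h3 := hs _ hcon
      rw [← h2] at h3
      have h4 : s0⁻¹ (s j) = j := s.injective h3
      rw [h4] at hcon
      exact hcon hj
    calc M.det.vars.card ≤ (((V.image s0) ×ˢ V).image fun p => w p.1 p.2).card :=
          Finset.card_le_card hsub
      _ ≤ ((V.image s0) ×ˢ V).card := Finset.card_image_le
      _ = (V.image s0).card * V.card := Finset.card_product _ _
      _ ≤ V.card * V.card := Nat.mul_le_mul_right _ Finset.card_image_le
      _ = V.card ^ 2 := (sq _).symm

end unit

/-! ### The minors tested by the library's tree -/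

section minors

variable {m n : ℕ}

/-- The type of a column: a unit column, or a column of `(A | b)` with a sign. -/
def ctype (x : Option (Fin (m + (n + n)))) : Fin m ⊕ (Option (Fin n) × ℝ) :=
  match x with
  | none => Sum.inr (none, -1)
  | some k => match (colEquiv m n).symm k with
    | Sum.inl r => Sum.inl r
    | Sum.inr (Sum.inl c) => Sum.inr (some c, -1)
    | Sum.inr (Sum.inr c) => Sum.inr (some c, 1)

/-- The variable in row `i` of a column of `(A | b)`. -/
def cvar (i : Fin m) : Option (Fin n) → Idx m n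
  | none => Sum.inr i
  | some c => Sum.inl (i, c)

lemma ctype_sign (x : Option (Fin (m + (n + n)))) (c : Option (Fin n)) (e : ℝ)
    (h : ctype x = Sum.inr (c, e)) : e * e = 1 := by
  unfold ctype at h
  rcases x with _ | k
  · simp only [Sum.inr.injEq, Prod.mk.injEq] at h
    rw [← h.2]; norm_num
  · simp only at h
    rcases hk : (colEquiv m n).symm k with r | c' | c'
    · rw [hk] at h
      simp at h
    · rw [hk] at h
      simp only [Sum.inr.injEq, Prod.mk.injEq] at h
      rw [← h.2]; norm_num
    · rw [hk] at h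
      simp only [Sum.inr.injEq, Prod.mk.injEq] at h
      rw [← h.2]; norm_num

lemma polyMat_inl (i : Fin m) (x : Option (Fin (m + (n + n)))) (r : Fin m)
    (h : ctype x = Sum.inl r) : polyMat m n i x = if i = r then 1 else 0 := by
  unfold ctype at h
  unfold polyMat wmat
  rcases x with _ | k
  · simp at h
  · simp only at h ⊢
    rcases hk : (colEquiv m n).symm k with r' | c' | c'
    · rw [hk] at h
      simp only [Sum.inl.injEq] at h
      subst h
      rfl
    · rw [hk] at h
      simp at h
    · rw [hk] at h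
      simp at h

lemma polyMat_inr (i : Fin m) (x : Option (Fin (m + (n + n)))) (c : Option (Fin n)) (e : ℝ)
    (h : ctype x = Sum.inr (c, e)) : polyMat m n i x = C e * X (cvar i c) := by
  unfold ctype at h
  unfold polyMat wmat
  rcases x with _ | k
  · simp only [Sum.inr.injEq, Prod.mk.injEq] at h
    obtain ⟨rfl, rfl⟩ := h
    simp [cvar]
  · simp only at h ⊢
    rcases hk : (colEquiv m n).symm k with r' | c' | c'
    · rw [hk] at h
      simp at h
    · rw [hk] at h
      simp only [Sum.inr.injEq, Prod.mk.injEq] at h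
      obtain ⟨rfl, rfl⟩ := h
      simp [colEntry, cvar]
    · rw [hk] at h
      simp only [Sum.inr.injEq, Prod.mk.injEq] at h
      obtain ⟨rfl, rfl⟩ := h
      simp [colEntry, cvar]

/-- The column of `(A | b)`. -/
def ccol (x : Option (Fin (m + (n + n)))) : Option (Fin n) :=
  match ctype x with
  | Sum.inl _ => none
  | Sum.inr p => p.1

/-- The sign. -/
noncomputable def csgn (x : Option (Fin (m + (n + n)))) : ℝ :=
  match ctype x with
  | Sum.inl _ => 1
  | Sum.inr p => p.2

/-- **The minors tested by the tree** have degree at most `n + 1`, at most `(n + 1)!` monomials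
and at most `(n + 1) ^ 2` variables. -/
theorem polyMinor_small (β : Fin m → Option (Fin (m + (n + n)))) :
    (polyMinor m n β).totalDegree ≤ n + 1 ∧ (polyMinor m n β).support.card ≤ (n + 1).factorial ∧
      (polyMinor m n β).vars.card ≤ (n + 1) ^ 2 := by
  classical
  set V : Finset (Fin m) := Finset.univ.filter fun j => ∃ p, ctype (β j) = Sum.inr p with hV
  have hV1 : ∀ j ∈ V, ctype (β j) = Sum.inr (ccol (β j), csgn (β j)) := by
    intro j hj
    obtain ⟨p, hp⟩ := (Finset.mem_filter.1 hj).2
    unfold ccol csgn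
    rw [hp]
  have hV2 : ∀ j, j ∉ V → ∃ r, ctype (β j) = Sum.inl r := by
    intro j hj
    rcases h : ctype (β j) with r | p
    · exact ⟨r, rfl⟩
    · exact absurd (Finset.mem_filter.2 ⟨Finset.mem_univ j, p, h⟩) hj
  have hrex : ∃ r : Fin m → Fin m, ∀ j, j ∉ V → ctype (β j) = Sum.inl (r j) := by
    refine ⟨fun j => if hj : j ∉ V then (hV2 j hj).choose else j, fun j hj => ?_⟩
    simp only
    rw [dif_pos hj]
    exact (hV2 j hj).choose_spec
  obtain ⟨r, hr⟩ := hrex
  set M : Matrix (Fin m) (Fin m) (MvPolynomial (Idx m n) ℝ) :=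
    Matrix.of fun i j => polyMat m n i (β j) with hM
  have hU : UnitCols M V (fun i j => cvar i (ccol (β j))) (fun j => csgn (β j)) r := by
    constructor
    · intro i j hj
      exact polyMat_inr i _ _ _ (hV1 j hj)
    · intro i j hj
      exact polyMat_inl i _ _ (hr j hj)
  have hdet : polyMinor m n β = M.det := rfl
  rw [hdet]
  by_cases hinj : ∀ j ∈ V, ∀ j' ∈ V, ccol (β j) = ccol (β j') → j = j'
  · have hcard : V.card ≤ n + 1 := by
      have h1 : V.card ≤ (Finset.univ : Finset (Option (Fin n))).card := by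
        apply Finset.card_le_card_of_injOn (fun j => ccol (β j)) (fun _ _ => Finset.mem_univ _)
        intro j hj j' hj' h
        exact hinj j hj j' hj' h
      simpa using h1
    exact ⟨hU.totalDegree_le.trans hcard, hU.support_card.trans (Nat.factorial_le hcard),
      hU.vars_card.trans (Nat.pow_le_pow_left hcard 2)⟩
  · push Not at hinj
    obtain ⟨j, hj, j', hj', hc, hne⟩ := hinj
    have h0 : M.det = 0 := by
      have hcol : ∀ i, M i j = C (csgn (β j) * csgn (β j')) * M i j' := by
        intro i
        rw [hU.var i j hj, hU.var i j' hj', hc, ← mul_assoc, ← map_mul, mul_assoc,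
          ctype_sign _ _ _ (hV1 j' hj'), mul_one]
      have h1 : M = M.updateCol j ((C (csgn (β j) * csgn (β j')) : MvPolynomial (Idx m n) ℝ) •
          fun i => M i j') := by
        ext1 i l
        rw [updateCol_apply]
        split_ifs with hl
        · subst hl
          rw [Pi.smul_apply, smul_eq_mul]
          exact hcol i
        · rfl
      rw [h1, det_updateCol_smul]
      have h2 : (M.updateCol j fun i => M i j').det = 0 := by
        apply det_zero_of_column_eq hne
        intro i
        rw [updateCol_self, updateCol_ne (Ne.symm hne)]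
      rw [h2, mul_zero]
    rw [h0]
    simp

end minors

/-! ### Trees -/

section trees

variable {m n : ℕ}

/-- The queries of a tree. -/
def tests {Q : Type} : QT Q → List Q
  | QT.leaf _ => []
  | QT.node q a b c => q :: (tests a ++ (tests b ++ tests c))

/-- Renaming of the queries. -/
def qmap {Q Q' : Type} (f : Q → Q') : QT Q → QT Q'
  | QT.leaf b => QT.leaf b
  | QT.node q a b c => QT.node (f q) (qmap f a) (qmap f b) (qmap f c)

lemma eval_qmap {Q Q' : Type} (f : Q → Q') (T : QT Q) (τ : Q' → SignType) :
    (qmap f T).eval τ = T.eval fun q => τ (f q) := by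
  induction T with
  | leaf b => rfl
  | node q a b c iha ihb ihc =>
    unfold qmap QT.eval
    rw [iha, ihb, ihc]

lemma depth_qmap {Q Q' : Type} (f : Q → Q') (T : QT Q) : (qmap f T).depth = T.depth := by
  induction T with
  | leaf b => rfl
  | node q a b c iha ihb ihc =>
    unfold qmap QT.depth
    rw [iha, ihb, ihc]

lemma tests_qmap {Q Q' : Type} (f : Q → Q') (T : QT Q) : ∀ p ∈ tests (qmap f T), ∃ q, p = f q := by
  induction T with
  | leaf b => simp [qmap, tests]
  | node q a b c iha ihb ihc =>
    intro p hp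
    unfold qmap tests at hp
    simp only [List.mem_cons, List.mem_append] at hp
    rcases hp with rfl | hp | hp | hp
    · exact ⟨q, rfl⟩
    · exact iha p hp
    · exact ihb p hp
    · exact ihc p hp

lemma eval_congr {Q : Type} (T : QT Q) (τ τ' : Q → SignType) (h : ∀ q ∈ tests T, τ q = τ' q) :
    T.eval τ = T.eval τ' := by
  induction T with
  | leaf b => rfl
  | node q a b c iha ihb ihc =>
    unfold tests at h
    simp only [List.mem_cons, List.mem_append] at h
    have h0 := h q (Or.inl rfl)
    have ha := iha fun p hp => h p (Or.inr (Or.inl hp))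
    have hb := ihb fun p hp => h p (Or.inr (Or.inr (Or.inl hp)))
    have hc := ihc fun p hp => h p (Or.inr (Or.inr (Or.inr hp)))
    unfold QT.eval
    rw [h0, ha, hb, hc]

/-- The answer of a tree whose queries are polynomials in the entries of `A` and `b`: the signs of
the polynomials are tested. -/
noncomputable def ansOn (T : QT (MvPolynomial (Idx m n) ℝ)) (x : Idx m n → ℝ) : Bool :=
  T.eval fun p => SignType.sign (eval x p)

/-- The tree decides feasibility on generic inputs: for all inputs outside of the zero set of a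
nonzero polynomial. -/
def GenDecides (T : QT (MvPolynomial (Idx m n) ℝ)) : Prop :=
  ∃ G : MvPolynomial (Idx m n) ℝ, G ≠ 0 ∧ ∀ x, eval x G ≠ 0 → (ansOn T x = true ↔ Feas x)

/-- **Lower bound for trees of any size.** -/
theorem tree_lower (hm : n < m) (T : QT (MvPolynomial (Idx m n) ℝ)) (hT : GenDecides T)
    (s : Rows m (n + 1)) : ∃ p ∈ tests T, p ≠ 0 ∧ gdet (vB (emb s)) ∣ p := by
  classical
  obtain ⟨G, hG, hdec⟩ := hT
  have hD : Decides fun k : Fin (tests T).length => (tests T).get k := by
    refine ⟨G, hG, fun x y hx hy h => ?_⟩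
    rw [← hdec x hx, ← hdec y hy]
    have : ansOn T x = ansOn T y := by
      apply eval_congr
      intro q hq
      obtain ⟨k, hk⟩ := List.get_of_mem hq
      have := h k
      simp only at this
      rw [hk] at this
      exact this
    rw [this]
  set I : Finset (Fin (tests T).length) := Finset.univ.filter fun k => (tests T).get k ≠ 0 with hI
  have hdvd : gdet (vB (emb s)) ∣ ∏ k ∈ I, (tests T).get k :=
    ess_dvd hm _ hD (∏ k ∈ I, (tests T).get k) (fun k hk =>
      Finset.dvd_prod_of_mem _ (Finset.mem_filter.2 ⟨Finset.mem_univ k, hk⟩)) (Sum.inl s)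
  have hprime : Prime (gdet (vB (emb s))) := irreducible_iff_prime.1 (irreducible_B s)
  obtain ⟨k, hk, hk'⟩ := (hprime.dvd_finsetProd_iff _).1 hdvd
  exact ⟨(tests T).get k, List.get_mem _ _, (Finset.mem_filter.1 hk).2, hk'⟩

/-- **Lower bounds for the tests.** -/
theorem tree_lower' (hm : n < m) (T : QT (MvPolynomial (Idx m n) ℝ)) (hT : GenDecides T)
    (s : Rows m (n + 1)) : ∃ p ∈ tests T, gdet (vB (emb s)) ∣ p ∧ n + 1 ≤ p.totalDegree ∧
      (n + 1).factorial ≤ p.support.card ∧ (n + 1) ^ 2 ≤ p.vars.card := by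
  obtain ⟨p, hp, hp0, hdvd⟩ := tree_lower hm T hT s
  have hv := vB_inj (emb s) (emb_inj s)
  refine ⟨p, hp, hdvd, ?_, factorial_le_support _ hv p hp0 hdvd, sq_le_vars _ hv p hp0 hdvd⟩
  have h1 : (gdet (vB (emb s))).totalDegree = n + 1 :=
    totalDegree_gdet _ (irreducible_B s).ne_zero
  rw [← h1]
  exact totalDegree_le_of_dvd_of_isDomain hdvd hp0

/-- **Upper bound: a tree of polynomial depth.** -/
theorem tree_upper (m n : ℕ) : ∃ T : QT (MvPolynomial (Idx m n) ℝ),
    T.depth ≤ (2 * m + 2 * n + 3) * ((2 * m + 2 * n + 3) * (pexp m n + 1)) ∧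
    (∀ x, ansOn T x = true ↔ Feas x) ∧
    ∀ p ∈ tests T, p.totalDegree ≤ n + 1 ∧ p.support.card ≤ (n + 1).factorial ∧
      p.vars.card ≤ (n + 1) ^ 2 := by
  classical
  obtain ⟨T, h1, h2⟩ := Pool.Agent.H558R2.exists_queryTree m n
  refine ⟨qmap (polyMinor m n) T, by rw [depth_qmap]; exact h1, fun x => ?_, ?_⟩
  · set a : Pool.Agent.H558R2.Inp m n := (fun i j => x (Sum.inl (i, j)), fun i => x (Sum.inr i))
      with ha
    have hx : Pool.Agent.H558R2.val a = x := by
      ext k
      rcases k with p | i <;> rfl
    unfold ansOn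
    rw [eval_qmap]
    have h3 : (fun β => SignType.sign (eval x (polyMinor m n β))) =
        Pool.Agent.H558R2.pat a := by
      ext1 β
      rw [← hx, Pool.Agent.H558R2.eval_polyMinor]
      rfl
    rw [h3, h2 a, decide_eq_true_eq]
    rfl
  · intro p hp
    obtain ⟨β, rfl⟩ := tests_qmap _ _ p hp
    exact polyMinor_small β

lemma depth_le (m n : ℕ) (hmn : n < m) :
    (2 * m + 2 * n + 3) * ((2 * m + 2 * n + 3) * (pexp m n + 1)) ≤ 200 * (m + n) ^ 6 := by
  set N := m + n with hN
  have hN1 : 1 ≤ N := by omega
  have h1 : 2 * m + 2 * n + 3 ≤ 5 * N := by omega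
  have h2 : pexp m n + 1 ≤ 8 * N ^ 4 := by
    unfold pexp
    have a1 : (m + (n + n) + 1) * m + m + 3 ≤ 7 * N ^ 2 := by
      have b1 : (m + (n + n) + 1) * m ≤ (3 * N) * N := Nat.mul_le_mul (by omega) (by omega)
      have b2 : m ≤ N := by omega
      nlinarith
    have a2 : m * n + m ≤ N ^ 2 := by
      have : n + 1 ≤ N := by omega
      have b3 : m * (n + 1) ≤ N * N := Nat.mul_le_mul (by omega) this
      nlinarith
    have a3 := Nat.mul_le_mul a1 a2
    have a4 : 1 ≤ N ^ 4 := Nat.one_le_pow _ _ (by omega)
    calc ((m + (n + n) + 1) * m + m + 3) * (m * n + m) + 1 ≤ 7 * N ^ 2 * N ^ 2 + N ^ 4 :=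
          Nat.add_le_add a3 a4
      _ = 8 * N ^ 4 := by ring
  calc (2 * m + 2 * n + 3) * ((2 * m + 2 * n + 3) * (pexp m n + 1))
      ≤ (5 * N) * ((5 * N) * (8 * N ^ 4)) := Nat.mul_le_mul h1 (Nat.mul_le_mul h1 h2)
    _ = 200 * N ^ 6 := by ring

end trees

end Pool.Agent.H682.NA
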