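import Pool.Agent.H682.NA.Low

set_option autoImplicit false

/-!
# Multiples of a generic determinant have many monomials and many variables
-/

namespace Pool.Agent.H682.NA

open MvPolynomial Matrix

variable {σ : Type*} {k : ℕ}

/-- The monomial of a permutation. -/
noncomputable def pmon (v : Fin k → Fin k → σ) (s : Equiv.Perm (Fin k)) : σ →₀ ℕ :=
  ∑ i, Finsupp.single (v (s i) i) 1

lemma gdet_eq (v : Fin k → Fin k → σ) :
    gdet v = ∑ s : Equiv.Perm (Fin k), monomial (pmon v s) ((Equiv.Perm.sign s : ℤ) : ℝ) := by
  unfold gdet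
  rw [det_apply]
  refine Finset.sum_congr rfl fun s _ => ?_
  have h1 : ∏ i, (Matrix.of fun i j => (X (v i j) : MvPolynomial σ ℝ)) (s i) i =
      monomial (pmon v s) 1 := by
    simp only [of_apply]
    unfold pmon
    rw [monomial_sum_one]
    rfl
  rw [h1]
  rcases Int.units_eq_one_or (Equiv.Perm.sign s) with h2 | h2
  · rw [h2]
    simp
  · rw [h2]
    simp

/-- The weight of a monomial: its total exponent in the variables on the graph of `s`. -/
def wt (v : Fin k → Fin k → σ) (s : Equiv.Perm (Fin k)) (a : σ →₀ ℕ) : ℕ := ∑ i, a (v (s i) i)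

lemma wt_add (v : Fin k → Fin k → σ) (s : Equiv.Perm (Fin k)) (a b : σ →₀ ℕ) :
    wt v s (a + b) = wt v s a + wt v s b := by
  unfold wt
  rw [← Finset.sum_add_distrib]
  rfl

lemma pmon_apply (v : Fin k → Fin k → σ)
    (hv : Function.Injective fun p : Fin k × Fin k => v p.1 p.2) (t : Equiv.Perm (Fin k))
    (i j : Fin k) : pmon v t (v i j) = if t j = i then 1 else 0 := by
  classical
  unfold pmon
  rw [Finsupp.finsetSum_apply]
  rw [Finset.sum_eq_single j]
  · rw [Finsupp.single_apply]
    by_cases h : t j = i
    · rw [if_pos h, if_pos (by rw [h])]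
    · rw [if_neg h, if_neg]
      intro e
      have := hv (a₁ := (t j, j)) (a₂ := (i, j)) e
      simp only [Prod.mk.injEq, and_true] at this
      exact h this
  · intro l _ hl
    rw [Finsupp.single_apply, if_neg]
    intro e
    have := hv (a₁ := (t l, l)) (a₂ := (i, j)) e
    simp only [Prod.mk.injEq] at this
    exact hl this.2
  · intro h
    exact absurd (Finset.mem_univ j) h

lemma wt_pmon (v : Fin k → Fin k → σ)
    (hv : Function.Injective fun p : Fin k × Fin k => v p.1 p.2) (s t : Equiv.Perm (Fin k)) :
    wt v s (pmon v t) = (Finset.univ.filter fun i => t i = s i).card := by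
  unfold wt
  simp only [pmon_apply v hv, Finset.sum_boole, Nat.cast_id]

lemma wt_pmon_self (v : Fin k → Fin k → σ)
    (hv : Function.Injective fun p : Fin k × Fin k => v p.1 p.2) (s : Equiv.Perm (Fin k)) :
    wt v s (pmon v s) = k := by
  rw [wt_pmon v hv]
  simp

lemma wt_pmon_lt (v : Fin k → Fin k → σ)
    (hv : Function.Injective fun p : Fin k × Fin k => v p.1 p.2) (s t : Equiv.Perm (Fin k))
    (h : t ≠ s) : wt v s (pmon v t) < k := by
  rw [wt_pmon v hv]
  obtain ⟨i, hi⟩ : ∃ i, t i ≠ s i := by
    by_contra hcon
    push Not at hcon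
    exact h (Equiv.ext hcon)
  calc (Finset.univ.filter fun i => t i = s i).card
      < (Finset.univ : Finset (Fin k)).card := by
        apply Finset.card_lt_card
        rw [Finset.ssubset_iff_of_subset (Finset.filter_subset _ _)]
        exact ⟨i, Finset.mem_univ i, by simp [hi]⟩
    _ = k := by simp

lemma coeff_gdet (v : Fin k → Fin k → σ) (a : σ →₀ ℕ) (h : coeff a (gdet v) ≠ 0) :
    ∃ t, a = pmon v t := by
  classical
  by_contra hcon
  push Not at hcon
  apply h
  rw [gdet_eq, coeff_sum]
  apply Finset.sum_eq_zero
  intro t _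
  rw [coeff_monomial, if_neg (fun e => hcon t e.symm)]

lemma coeff_gdet_pmon (v : Fin k → Fin k → σ)
    (hv : Function.Injective fun p : Fin k × Fin k => v p.1 p.2) (s : Equiv.Perm (Fin k)) :
    coeff (pmon v s) (gdet v) ≠ 0 := by
  classical
  rw [gdet_eq, coeff_sum, Finset.sum_eq_single s]
  · rw [coeff_monomial, if_pos rfl]
    rcases Int.units_eq_one_or (Equiv.Perm.sign s) with h2 | h2 <;> rw [h2] <;> simp
  · intro t _ ht
    rw [coeff_monomial, if_neg]
    intro e
    have h1 := wt_pmon_self v hv s
    have h2 := wt_pmon_lt v hv s t ht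
    rw [e] at h2
    omega
  · intro h
    exact absurd (Finset.mem_univ s) h

/-- **Every nonzero multiple of the generic determinant of order `k` has at least `k!` monomials.** -/
theorem factorial_le_support (v : Fin k → Fin k → σ)
    (hv : Function.Injective fun p : Fin k × Fin k => v p.1 p.2) (F : MvPolynomial σ ℝ)
    (hF : F ≠ 0) (hdvd : gdet v ∣ F) : k.factorial ≤ F.support.card := by
  classical
  obtain ⟨G, hG⟩ := hdvd
  have hG0 : G ≠ 0 := by
    rintro rfl
    exact hF (by rw [hG, mul_zero])
  have hne : G.support.Nonempty := by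
    rw [Finset.nonempty_iff_ne_empty]
    intro h
    exact hG0 (support_eq_empty.1 h)
  -- for every permutation, a monomial of `G` of maximal weight
  have hmax : ∀ s : Equiv.Perm (Fin k), ∃ g ∈ G.support, ∀ b ∈ G.support, wt v s b ≤ wt v s g :=
    fun s => Finset.exists_max_image G.support (wt v s) hne
  choose g hg hgmax using hmax
  have hmem : ∀ s, pmon v s + g s ∈ F.support := by
    intro s
    rw [mem_support_iff, hG, coeff_mul, Finset.sum_eq_single (pmon v s, g s)]
    · exact mul_ne_zero (coeff_gdet_pmon v hv s) (mem_support_iff.1 (hg s))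
    · rintro ⟨a, b⟩ hab hne'
      rw [Finset.HasAntidiagonal.mem_antidiagonal] at hab
      simp only at hab ⊢
      by_contra hcon
      have ha : coeff a (gdet v) ≠ 0 := left_ne_zero_of_mul hcon
      have hb : coeff b G ≠ 0 := right_ne_zero_of_mul hcon
      obtain ⟨t, rfl⟩ := coeff_gdet v a ha
      have h1 : wt v s (pmon v t + b) = wt v s (pmon v s + g s) := by rw [hab]
      rw [wt_add, wt_add, wt_pmon_self v hv] at h1
      have h2 := hgmax s b (mem_support_iff.2 hb)
      by_cases ht : t = s
      · subst ht
        apply hne'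
        rw [Prod.mk.injEq]
        exact ⟨rfl, add_left_cancel hab⟩
      · have := wt_pmon_lt v hv s t ht
        omega
    · intro h
      exfalso
      apply h
      rw [Finset.HasAntidiagonal.mem_antidiagonal]
  have hinj : Function.Injective fun s => pmon v s + g s := by
    intro s t hst
    by_contra hne'
    simp only at hst
    have h1 : wt v s (pmon v s + g s) = wt v s (pmon v t + g t) := by rw [hst]
    rw [wt_add, wt_add, wt_pmon_self v hv] at h1
    have h2 := hgmax s (g t) (hg t)
    have h3 := wt_pmon_lt v hv s t (Ne.symm hne')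
    omega
  calc k.factorial = Fintype.card (Equiv.Perm (Fin k)) := by
        rw [Fintype.card_perm, Fintype.card_fin]
    _ = (Finset.univ.image fun s => pmon v s + g s).card := by
        rw [Finset.card_image_of_injective _ hinj, Finset.card_univ]
    _ ≤ F.support.card := by
        apply Finset.card_le_card
        intro x hx
        obtain ⟨s, -, rfl⟩ := Finset.mem_image.1 hx
        exact hmem s

/-- **Every nonzero multiple of the generic determinant involves all its variables.** -/
theorem sq_le_vars (v : Fin k → Fin k → σ)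
    (hv : Function.Injective fun p : Fin k × Fin k => v p.1 p.2) (F : MvPolynomial σ ℝ)
    (hF : F ≠ 0) (hdvd : gdet v ∣ F) : k ^ 2 ≤ F.vars.card := by
  classical
  obtain ⟨G, hG⟩ := hdvd
  have hG0 : G ≠ 0 := by
    rintro rfl
    exact hF (by rw [hG, mul_zero])
  have hD0 : gdet v ≠ 0 := by
    intro h
    exact hF (by rw [hG, h, zero_mul])
  have hmem : ∀ p : Fin k × Fin k, v p.1 p.2 ∈ F.vars := by
    rintro ⟨i, j⟩
    have h1 : v i j ∈ (gdet v).vars := by
      rw [mem_vars_iff_mem_support]
      refine ⟨pmon v (Equiv.swap i j), mem_support_iff.2 (coeff_gdet_pmon v hv _), ?_⟩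
      rw [Finsupp.mem_support_iff, pmon_apply v hv, Equiv.swap_apply_right, if_pos rfl]
      exact one_ne_zero
    have h2 : degreeOf (v i j) (gdet v) ≠ 0 := by
      intro h
      rw [degreeOf_def, Multiset.count_eq_zero] at h
      rw [vars_def, Multiset.mem_toFinset] at h1
      exact h h1
    have h3 : degreeOf (v i j) F ≠ 0 := by
      rw [hG, degreeOf_mul_eq hD0 hG0]
      omega
    by_contra h4
    apply h3
    rw [degreeOf_def, Multiset.count_eq_zero]
    intro h5
    exact h4 (by rw [vars_def, Multiset.mem_toFinset]; exact h5)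
  calc k ^ 2 = Fintype.card (Fin k × Fin k) := by
        rw [Fintype.card_prod, Fintype.card_fin, sq]
    _ = (Finset.univ.image fun p : Fin k × Fin k => v p.1 p.2).card := by
        rw [Finset.card_image_of_injective _ hv, Finset.card_univ]
    _ ≤ F.vars.card := by
        apply Finset.card_le_card
        intro x hx
        obtain ⟨p, -, rfl⟩ := Finset.mem_image.1 hx
        exact hmem p

end Pool.Agent.H682.NA
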