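import Pool.Agent.H682.NA.Low

set_option autoImplicit false

/-!
# The essential minors decide feasibility
-/

namespace Pool.Agent.H682.NA

open MvPolynomial Matrix

variable {m n : ℕ}

/-- Feasibility of the subsystem of the rows `S`. -/
def SubFeas (S : Fin (n + 1) → Fin m) (a : Idx m n → ℝ) : Prop :=
  ∃ x : Fin n → ℝ, ∀ i, a (Sum.inr (S i)) ≤ ∑ j, a (Sum.inl (S i, j)) * x j

/-- **Helly's theorem.** -/
lemma feas_iff (hm : n < m) (a : Idx m n → ℝ) :
    Feas a ↔ ∀ s : Rows m (n + 1), SubFeas (emb s) a := by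
  constructor
  · rintro ⟨x, hx⟩ s
    exact ⟨x, fun i => hx _⟩
  · intro h
    have key : (⋂ i ∈ (Finset.univ : Finset (Fin m)),
        {x : Fin n → ℝ | a (Sum.inr i) ≤ rowA a i ⬝ᵥ x}).Nonempty := by
      apply Convex.helly_theorem (𝕜 := ℝ)
      · rw [Module.finrank_fin_fun, Finset.card_univ, Fintype.card_fin]
        omega
      · intro i _
        exact convex_halfSpace_ge ⟨fun x y => dotProduct_add _ x y,
          fun c x => dotProduct_smul c _ x⟩ _
      · intro I _ hI
        rw [Module.finrank_fin_fun] at hI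
        obtain ⟨x, hx⟩ := h ⟨I, hI⟩
        refine ⟨x, ?_⟩
        simp only [Set.mem_iInter]
        intro r hr
        obtain ⟨i, rfl⟩ := exists_emb ⟨I, hI⟩ r hr
        exact hx i
    obtain ⟨x, hx⟩ := key
    simp only [Set.mem_iInter] at hx
    exact ⟨x, fun i => hx i (Finset.mem_univ i)⟩

lemma subFeas_iff (S : Fin (n + 1) → Fin m) (a : Idx m n → ℝ)
    (hd : (vmat (vB S) a).det ≠ 0)
    (hc : ∀ i, (vmat (vB S) a).adjugate (Fin.last n) i ≠ 0) :
    SubFeas S a ↔ ¬ ∀ i, 0 < (vmat (vB S) a).adjugate (Fin.last n) i * (vmat (vB S) a).det := by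
  set M := vmat (vB S) a with hM
  have hM1 : ∀ i (j : Fin n), M i j.castSucc = a (Sum.inl (S i, j)) := fun i j =>
    congrArg a (vB_castSucc S i j)
  have hM2 : ∀ i, M i (Fin.last n) = a (Sum.inr (S i)) := fun i => congrArg a (vB_last S i)
  have e1 : ∑ i, M.adjugate (Fin.last n) i * a (Sum.inr (S i)) = M.det := by
    have h3 := congrFun (congrFun (adjugate_mul M) (Fin.last n)) (Fin.last n)
    rw [mul_apply, Matrix.smul_apply, one_apply_eq, smul_eq_mul, mul_one] at h3
    rw [← h3]
    exact Finset.sum_congr rfl fun i _ => by rw [hM2]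
  have e2 : ∀ j : Fin n, ∑ i, M.adjugate (Fin.last n) i * a (Sum.inl (S i, j)) = 0 := by
    intro j
    have h3 := congrFun (congrFun (adjugate_mul M) (Fin.last n)) j.castSucc
    rw [mul_apply, Matrix.smul_apply, one_apply_ne (Fin.castSucc_lt_last j).ne', smul_zero] at h3
    rw [← h3]
    exact Finset.sum_congr rfl fun i _ => by rw [hM1]
  constructor
  · rintro ⟨x, hx⟩ hpos
    have e3 : ∑ i, M.adjugate (Fin.last n) i * M.det * a (Sum.inr (S i)) ≤
        ∑ i, M.adjugate (Fin.last n) i * M.det * ∑ j, a (Sum.inl (S i, j)) * x j :=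
      Finset.sum_le_sum fun i _ => mul_le_mul_of_nonneg_left (hx i) (hpos i).le
    have e4 : ∑ i, M.adjugate (Fin.last n) i * M.det * ∑ j, a (Sum.inl (S i, j)) * x j = 0 := by
      simp only [Finset.mul_sum]
      rw [Finset.sum_comm]
      apply Finset.sum_eq_zero
      intro j _
      have : ∀ i, M.adjugate (Fin.last n) i * M.det * (a (Sum.inl (S i, j)) * x j) =
          M.adjugate (Fin.last n) i * a (Sum.inl (S i, j)) * (M.det * x j) := fun i => by ring
      rw [Finset.sum_congr rfl fun i _ => this i, ← Finset.sum_mul, e2, zero_mul]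
    have e5 : ∑ i, M.adjugate (Fin.last n) i * M.det * a (Sum.inr (S i)) = M.det * M.det := by
      rw [← e1, Finset.mul_sum, Finset.sum_congr rfl]
      intro i _
      rw [e1]
      ring
    have e6 : 0 < M.det * M.det := by
      rcases lt_or_gt_of_ne hd with h | h
      · exact mul_pos_of_neg_of_neg h h
      · exact mul_pos h h
    linarith
  · intro h
    push Not at h
    obtain ⟨i0, hi0⟩ := h
    have hi1 : M.adjugate (Fin.last n) i0 * M.det < 0 :=
      lt_of_le_of_ne hi0 (mul_ne_zero (hc i0) hd)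
    set c := M.adjugate (Fin.last n) i0 with hc'
    have hs : 0 < - M.det / c := by
      have h1 : - M.det / c = - (c * M.det) / (c * c) := by
        field_simp
      rw [h1]
      apply div_pos (by linarith)
      rcases lt_or_gt_of_ne (hc i0) with h | h
      · exact mul_pos_of_neg_of_neg h h
      · exact mul_pos h h
    set t : Fin (n + 1) → ℝ := fun i => a (Sum.inr (S i)) + if i = i0 then - M.det / c else 0
      with ht
    set w : Fin (n + 1) → ℝ := (M.det)⁻¹ • (M.adjugate *ᵥ t) with hw
    have hw1 : M *ᵥ w = t := by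
      rw [hw, mulVec_smul, mulVec_mulVec, mul_adjugate, smul_mulVec, one_mulVec, smul_smul,
        inv_mul_cancel₀ hd, one_smul]
    have hw2 : w (Fin.last n) = 0 := by
      have h1 : w (Fin.last n) = (M.det)⁻¹ * ∑ i, M.adjugate (Fin.last n) i * t i := rfl
      rw [h1]
      have h2 : ∑ i, M.adjugate (Fin.last n) i * t i = 0 := by
        simp only [ht, mul_add, Finset.sum_add_distrib, mul_ite, mul_zero]
        rw [e1, Finset.sum_ite_eq' Finset.univ i0, if_pos (Finset.mem_univ _), ← hc']
        have := hc i0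
        rw [← hc'] at this
        field_simp
        ring
      rw [h2, mul_zero]
    refine ⟨fun j => w j.castSucc, fun i => ?_⟩
    have h3 := congrFun hw1 i
    have h4 : (M *ᵥ w) i = ∑ j, M i j * w j := rfl
    rw [h4, Fin.sum_univ_castSucc, hw2, mul_zero, add_zero] at h3
    simp only [hM1] at h3
    rw [h3]
    simp only [ht]
    split_ifs
    · linarith
    · linarith

lemma cofactor_eq (s : Rows m (n + 1)) (a : Idx m n → ℝ) (i : Fin (n + 1)) :
    (vmat (vB (emb s)) a).adjugate (Fin.last n) i = (-1) ^ ((i : ℕ) + (Fin.last n : ℕ)) *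
      eval a (ess m n (Sum.inr ⟨s.1.erase (emb s i), by
        rw [Finset.card_erase_of_mem (emb_mem s i), s.2, Nat.add_sub_cancel]⟩)) := by
  rw [adjugate_fin_succ_eq_det_submatrix]
  congr 1
  show _ = eval a (gdet _)
  rw [eval_gdet]
  congr 1
  have h : (fun r => emb s (i.succAbove r)) = emb ⟨s.1.erase (emb s i), by
        rw [Finset.card_erase_of_mem (emb_mem s i), s.2, Nat.add_sub_cancel]⟩ := by
    apply Finset.orderEmbOfFin_unique
    · intro x
      rw [Finset.mem_erase]
      refine ⟨fun e => ?_, emb_mem s _⟩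
      exact Fin.succAbove_ne i x (emb_inj s e)
    · intro x y hxy
      exact (s.1.orderEmbOfFin s.2).strictMono (Fin.strictMono_succAbove i hxy)
  ext r j
  rw [submatrix_apply, of_apply]
  show a (vB (emb s) (i.succAbove r) ((Fin.last n).succAbove j)) = a (Sum.inl (_, j))
  rw [Fin.succAbove_last, vB_castSucc, ← h]

/-- The generic polynomial. -/
noncomputable def gen (m n : ℕ) : MvPolynomial (Idx m n) ℝ := ∏ e, ess m n e

lemma gen_ne_zero : gen m n ≠ 0 := Finset.prod_ne_zero_iff.2 fun e _ => ess_ne_zero e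

lemma ess_ne_of_gen {x : Idx m n → ℝ} (h : eval x (gen m n) ≠ 0)
    (e : Rows m (n + 1) ⊕ Rows m n) : eval x (ess m n e) ≠ 0 := by
  unfold gen at h
  rw [map_prod] at h
  exact Finset.prod_ne_zero_iff.1 h e (Finset.mem_univ e)

lemma subFeas_congr (s : Rows m (n + 1)) {x y : Idx m n → ℝ} (hx : eval x (gen m n) ≠ 0)
    (hy : eval y (gen m n) ≠ 0) (h : ∀ e, SignType.sign (eval x (ess m n e)) =
      SignType.sign (eval y (ess m n e))) : SubFeas (emb s) x ↔ SubFeas (emb s) y := by
  have hdet : ∀ {z : Idx m n → ℝ}, (vmat (vB (emb s)) z).det = eval z (ess m n (Sum.inl s)) :=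
    fun {z} => (eval_gdet' _ z).symm
  have hne : ∀ {z : Idx m n → ℝ}, eval z (gen m n) ≠ 0 → (vmat (vB (emb s)) z).det ≠ 0 ∧
      ∀ i, (vmat (vB (emb s)) z).adjugate (Fin.last n) i ≠ 0 := by
    intro z hz
    refine ⟨by rw [hdet]; exact ess_ne_of_gen hz _, fun i => ?_⟩
    rw [cofactor_eq]
    exact mul_ne_zero (pow_ne_zero _ (by norm_num)) (ess_ne_of_gen hz _)
  rw [subFeas_iff (emb s) x (hne hx).1 (hne hx).2, subFeas_iff (emb s) y (hne hy).1 (hne hy).2]
  apply not_congr
  refine forall_congr' fun i => ?_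
  have hs : SignType.sign ((vmat (vB (emb s)) x).adjugate (Fin.last n) i *
        (vmat (vB (emb s)) x).det) =
      SignType.sign ((vmat (vB (emb s)) y).adjugate (Fin.last n) i *
        (vmat (vB (emb s)) y).det) := by
    rw [sign_mul, sign_mul, cofactor_eq, cofactor_eq, sign_mul, sign_mul, h _, hdet, hdet, h _]
  rw [← sign_eq_one_iff, hs, sign_eq_one_iff]

/-- **The essential minors decide feasibility.** -/
theorem ess_decides' (hm : n < m) (x y : Idx m n → ℝ) (hx : eval x (gen m n) ≠ 0)
    (hy : eval y (gen m n) ≠ 0) (h : ∀ e, SignType.sign (eval x (ess m n e)) =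
      SignType.sign (eval y (ess m n e))) : Feas x ↔ Feas y := by
  rw [feas_iff hm, feas_iff hm]
  exact forall_congr' fun s => subFeas_congr s hx hy h

theorem ess_decides (hm : n < m) : Decides (ess m n) :=
  ⟨gen m n, gen_ne_zero, ess_decides' hm⟩

/-! ### Few tests -/

open Classical in
/-- Random products separate sign vectors. -/
theorem exists_separating {ι : Type*} [Fintype ι] (S : Finset (ι → SignType)) (P : ℕ)
    (hS : S.card ≤ 2 ^ P) (hne : ∀ σ ∈ S, ∀ i, σ i ≠ 0) :
    ∃ R : Fin (2 * P) → Finset ι, ∀ σ ∈ S, ∀ τ ∈ S,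
      (∀ k, ∏ i ∈ R k, σ i = ∏ i ∈ R k, τ i) → σ = τ := by
  set B : (ι → SignType) × (ι → SignType) → Finset (Finset ι) := fun q =>
    Finset.univ.filter fun R => ∏ i ∈ R, q.1 i = ∏ i ∈ R, q.2 i with hB
  have hBcard : ∀ q ∈ S.offDiag, 2 * (B q).card ≤ 2 ^ Fintype.card ι := by
    rintro ⟨σ, τ⟩ hq
    rw [Finset.mem_offDiag] at hq
    obtain ⟨hσ, hτ, hστ⟩ := hq
    obtain ⟨i0, hi0⟩ := Function.ne_iff.1 hστ
    -- toggling `i0`
    have htog : ∀ R : Finset ι, R ∈ B (σ, τ) → symmDiff R {i0} ∉ B (σ, τ) := by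
      intro R hR hR'
      simp only [hB, Finset.mem_filter, Finset.mem_univ, true_and] at hR hR'
      have hprod : ∀ (ρ : ι → SignType) (T : Finset ι), i0 ∉ T →
          ∏ i ∈ insert i0 T, ρ i = ρ i0 * ∏ i ∈ T, ρ i := fun ρ T hT =>
        Finset.prod_insert hT
      have hfin : ∀ T : Finset ι, i0 ∉ T → (∏ i ∈ T, σ i = ∏ i ∈ T, τ i) →
          (∏ i ∈ insert i0 T, σ i = ∏ i ∈ insert i0 T, τ i) → False := by
        intro T hT h1 h2
        rw [hprod σ T hT, hprod τ T hT, h1] at h2
        have h3 : ∏ i ∈ T, τ i ≠ 0 := Finset.prod_ne_zero_iff.2 fun i _ => hne τ hτ i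
        exact hi0 (mul_right_cancel₀ h3 h2)
      by_cases hi : i0 ∈ R
      · have e1 : symmDiff R {i0} = R.erase i0 := by
          ext x
          rw [Finset.mem_symmDiff, Finset.mem_erase, Finset.mem_singleton]
          by_cases hx : x = i0
          · subst hx
            simp [hi]
          · simp [hx]
        rw [e1] at hR'
        have e2 : insert i0 (R.erase i0) = R := Finset.insert_erase hi
        exact hfin (R.erase i0) (Finset.notMem_erase i0 R) hR' (by rw [e2]; exact hR)
      · have e1 : symmDiff R {i0} = insert i0 R := by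
          ext x
          rw [Finset.mem_symmDiff, Finset.mem_insert, Finset.mem_singleton]
          by_cases hx : x = i0
          · subst hx
            simp [hi]
          · simp [hx]
        rw [e1] at hR'
        exact hfin R hi hR hR'
    have hinj : Function.Injective fun R : Finset ι => symmDiff R {i0} := by
      intro R R' h
      exact symmDiff_left_injective {i0} h
    have hdisj : Disjoint (B (σ, τ)) ((B (σ, τ)).image fun R => symmDiff R {i0}) := by
      rw [Finset.disjoint_right]
      intro R hR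
      obtain ⟨R', hR', rfl⟩ := Finset.mem_image.1 hR
      exact htog R' hR'
    calc 2 * (B (σ, τ)).card = (B (σ, τ)).card +
          ((B (σ, τ)).image fun R => symmDiff R {i0}).card := by
          rw [Finset.card_image_of_injective _ hinj]
          ring
      _ = (B (σ, τ) ∪ (B (σ, τ)).image fun R => symmDiff R {i0}).card :=
          (Finset.card_union_of_disjoint hdisj).symm
      _ ≤ (Finset.univ : Finset (Finset ι)).card := Finset.card_le_univ _
      _ = 2 ^ Fintype.card ι := by rw [Finset.card_univ, Fintype.card_finset]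
  by_contra hcon
  push Not at hcon
  have hcover : (Finset.univ : Finset (Fin (2 * P) → Finset ι)) ⊆
      S.offDiag.biUnion fun q => Fintype.piFinset fun _ => B q := by
    intro R _
    obtain ⟨σ, hσ, τ, hτ, h1, h2⟩ := hcon R
    rw [Finset.mem_biUnion]
    refine ⟨(σ, τ), Finset.mem_offDiag.2 ⟨hσ, hτ, h2⟩, ?_⟩
    rw [Fintype.mem_piFinset]
    intro k
    rw [hB]
    simp only [Finset.mem_filter, Finset.mem_univ, true_and]
    exact h1 k
  have h1 := (Finset.card_le_card hcover).trans Finset.card_biUnion_le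
  simp only [Fintype.card_piFinset_const] at h1
  rw [Finset.card_univ, Fintype.card_fun, Fintype.card_finset, Fintype.card_fin] at h1
  have h2 : 2 ^ (2 * P) * (2 ^ Fintype.card ι) ^ (2 * P) ≤
      S.offDiag.card * (2 ^ Fintype.card ι) ^ (2 * P) := by
    calc 2 ^ (2 * P) * (2 ^ Fintype.card ι) ^ (2 * P)
        ≤ 2 ^ (2 * P) * ∑ q ∈ S.offDiag, (B q).card ^ (2 * P) := Nat.mul_le_mul_left _ h1
      _ = ∑ q ∈ S.offDiag, (2 * (B q).card) ^ (2 * P) := by
          rw [Finset.mul_sum]
          exact Finset.sum_congr rfl fun q _ => by rw [mul_pow]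
      _ ≤ ∑ _q ∈ S.offDiag, (2 ^ Fintype.card ι) ^ (2 * P) :=
          Finset.sum_le_sum fun q hq => Nat.pow_le_pow_left (hBcard q hq) _
      _ = S.offDiag.card * (2 ^ Fintype.card ι) ^ (2 * P) := by
          rw [Finset.sum_const, smul_eq_mul]
  have h3 : 2 ^ (2 * P) ≤ S.offDiag.card :=
    Nat.le_of_mul_le_mul_right h2 (by positivity)
  rw [Finset.offDiag_card] at h3
  have h4 : S.card * S.card ≤ 2 ^ (2 * P) := by
    calc S.card * S.card ≤ 2 ^ P * 2 ^ P := Nat.mul_le_mul hS hS
      _ = 2 ^ (2 * P) := by rw [← pow_add]; congr 1; ring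
  have h5 : 0 < 2 ^ (2 * P) := by positivity
  rcases Nat.eq_zero_or_pos S.card with h6 | h6
  · rw [h6] at h3
    simp at h3
  · omega

end Pool.Agent.H682.NA
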