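import Pool.Agent.H682.NA.Irr

set_option autoImplicit false

/-!
# Walls: an irreducible polynomial across whose zero set a property flips must divide a test
-/

namespace Pool.Agent.H682.NA

open MvPolynomial Matrix

variable {σ : Type*} {p f g : MvPolynomial σ ℝ} {i : σ}

/-- A nonzero polynomial is nonzero somewhere on a nonempty open set. -/
lemma exists_ne_zero [Finite σ] (r : MvPolynomial σ ℝ) (hr : r ≠ 0) (U : Set (σ → ℝ))
    (hU : IsOpen U) (hne : U.Nonempty) : ∃ x ∈ U, eval x r ≠ 0 := by
  by_contra h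
  push Not at h
  exact hr (eq_zero_of_open r U hU hne h)

lemma eval_shift [DecidableEq σ] (hp : p = f * X i + g) (hf : f ∈ supported ℝ ({i}ᶜ : Set σ))
    (hg : g ∈ supported ℝ ({i}ᶜ : Set σ)) (z : σ → ℝ) (t : ℝ) :
    eval (Function.update z i (z i + t)) p = eval z p + t * eval z f := by
  have h : ∀ j, j ≠ i → Function.update z i (z i + t) j = z j := fun j hj => by
    rw [Function.update_of_ne hj]
  rw [hp, map_add, map_mul, eval_X, eval_congr_supported hf _ z h,
    eval_congr_supported hg _ z h, Function.update_self, map_add, map_mul, eval_X]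
  ring

/-- **Walls.** -/
theorem wall [Finite σ] [DecidableEq σ] (hirr : Irreducible p) (hp : p = f * X i + g)
    (hf : f ∈ supported ℝ ({i}ᶜ : Set σ)) (hg : g ∈ supported ℝ ({i}ᶜ : Set σ))
    (P : (σ → ℝ) → Prop) (U : Set (σ → ℝ)) (hU : IsOpen U) (z : σ → ℝ) (hz : z ∈ U)
    (hpz : eval z p = 0) (hfU : ∀ x ∈ U, eval x f ≠ 0)
    (hpos : ∀ x ∈ U, 0 < eval x p → P x) (hneg : ∀ x ∈ U, eval x p < 0 → ¬ P x)
    {ι : Type*} [Fintype ι] (F : ι → MvPolynomial σ ℝ) (G : MvPolynomial σ ℝ) (hG : G ≠ 0)
    (hdec : ∀ x y, eval x G ≠ 0 → eval y G ≠ 0 →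
      (∀ k, SignType.sign (eval x (F k)) = SignType.sign (eval y (F k))) → (P x ↔ P y))
    (H : MvPolynomial σ ℝ) (hH : ∀ k, F k ≠ 0 → F k ∣ H) : p ∣ H := by
  by_contra hnd
  obtain ⟨z', hz'U, hz'p, hz'H⟩ := exists_zero hirr hp hf hg H hnd U hU z hz hpz (hfU z hz)
  have hF : ∀ k, F k ≠ 0 → eval z' (F k) ≠ 0 := by
    intro k hk h0
    obtain ⟨c, hc⟩ := hH k hk
    apply hz'H
    rw [hc, map_mul, h0, zero_mul]
  have hev : ∀ᶠ x in nhds z', x ∈ U ∧
      ∀ k, SignType.sign (eval x (F k)) = SignType.sign (eval z' (F k)) := by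
    refine Filter.Eventually.and (hU.mem_nhds hz'U) ?_
    rw [Filter.eventually_all]
    intro k
    by_cases hk : F k = 0
    · rw [hk]
      simp
    · have hc : ContinuousAt (fun x : σ → ℝ => eval x (F k)) z' :=
        (F k).continuous_eval.continuousAt
      rcases lt_or_gt_of_ne (hF k hk) with h | h
      · filter_upwards [hc.eventually_lt continuousAt_const h] with x hx
        rw [sign_neg hx, sign_neg h]
      · filter_upwards [continuousAt_const.eventually_lt hc h] with x hx
        rw [sign_pos hx, sign_pos h]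
  obtain ⟨W, hW1, hW2, hW3⟩ := eventually_nhds_iff.1 hev
  have := Fintype.ofFinite σ
  obtain ⟨ε, hε, hball⟩ := Metric.isOpen_iff.1 hW2 z' hW3
  have hmem : ∀ t : ℝ, |t| < ε → Function.update z' i (z' i + t) ∈ W := by
    intro t ht
    apply hball
    rw [Metric.mem_ball, dist_pi_lt_iff hε]
    intro j
    by_cases hj : j = i
    · subst hj
      rw [Function.update_self, Real.dist_eq]
      simpa using ht
    · rw [Function.update_of_ne hj, dist_self]
      exact hε
  have hsh : ∀ t : ℝ, eval (Function.update z' i (z' i + t)) p = t * eval z' f := by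
    intro t
    rw [eval_shift hp hf hg, hz'p, zero_add]
  have hfz := hfU z' hz'U
  have hcp : Continuous fun x : σ → ℝ => eval x p := p.continuous_eval
  have key : ∀ t : ℝ, |t| < ε → 0 < t * eval z' f → ∃ x ∈ W, 0 < eval x p ∧ eval x G ≠ 0 := by
    intro t ht h
    obtain ⟨x, hx, hxG⟩ := exists_ne_zero G hG (W ∩ {x | 0 < eval x p})
      (hW2.inter (isOpen_lt continuous_const hcp)) ⟨_, hmem t ht, by
        rw [Set.mem_setOf_eq, hsh]; exact h⟩
    exact ⟨x, hx.1, hx.2, hxG⟩
  have key' : ∀ t : ℝ, |t| < ε → t * eval z' f < 0 → ∃ x ∈ W, eval x p < 0 ∧ eval x G ≠ 0 := by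
    intro t ht h
    obtain ⟨x, hx, hxG⟩ := exists_ne_zero G hG (W ∩ {x | eval x p < 0})
      (hW2.inter (isOpen_lt hcp continuous_const)) ⟨_, hmem t ht, by
        rw [Set.mem_setOf_eq, hsh]; exact h⟩
    exact ⟨x, hx.1, hx.2, hxG⟩
  have h1 : |ε / 2| < ε := by rw [abs_of_pos (by linarith)]; linarith
  have h2 : |-(ε / 2)| < ε := by rw [abs_neg]; exact h1
  have hfin : (∃ x ∈ W, 0 < eval x p ∧ eval x G ≠ 0) ∧ (∃ x ∈ W, eval x p < 0 ∧ eval x G ≠ 0) := by
    rcases lt_or_gt_of_ne hfz with h | h
    · exact ⟨key _ h2 (by nlinarith), key' _ h1 (by nlinarith)⟩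
    · exact ⟨key _ h1 (by positivity), key' _ h2 (by nlinarith)⟩
  obtain ⟨⟨x, hx, hxp, hxG⟩, ⟨y, hy, hyp, hyG⟩⟩ := hfin
  have hiff := hdec x y hxG hyG (fun k => by rw [(hW1 x hx).2 k, (hW1 y hy).2 k])
  exact hneg y (hW1 y hy).1 hyp (hiff.1 (hpos x (hW1 x hx).1 hxp))

/-! ### The pivot expansion -/

section pivot

variable {R : Type*} [CommRing R] {k : ℕ}

lemma det_pivot (M : Matrix (Fin (k + 1)) (Fin (k + 1)) R) :
    M.det = (M.updateRow (Fin.last k) (Pi.single (Fin.last k) 1)).det *
      M (Fin.last k) (Fin.last k) +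
      (M.updateRow (Fin.last k) (Function.update (M (Fin.last k)) (Fin.last k) 0)).det := by
  have h : M (Fin.last k) = M (Fin.last k) (Fin.last k) • Pi.single (Fin.last k) 1 +
      Function.update (M (Fin.last k)) (Fin.last k) 0 := by
    ext j
    rw [Pi.add_apply, Pi.smul_apply]
    by_cases hj : j = Fin.last k
    · subst hj
      simp
    · rw [Function.update_of_ne hj, Pi.single_eq_of_ne hj]
      simp
  have h2 : M = M.updateRow (Fin.last k) (M (Fin.last k) (Fin.last k) • Pi.single (Fin.last k) 1 +
      Function.update (M (Fin.last k)) (Fin.last k) 0) := by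
    rw [← h, updateRow_eq_self]
  conv_lhs => rw [h2]
  rw [det_updateRow_add, det_updateRow_smul]
  ring

end pivot

variable {k : ℕ}

/-- The coefficient of the pivot variable in the generic determinant. -/
noncomputable def pf (v : Fin (k + 1) → Fin (k + 1) → σ) : MvPolynomial σ ℝ :=
  ((Matrix.of fun i j => (X (v i j) : MvPolynomial σ ℝ)).updateRow (Fin.last k)
    (Pi.single (Fin.last k) 1)).det

/-- The remainder. -/
noncomputable def pg (v : Fin (k + 1) → Fin (k + 1) → σ) : MvPolynomial σ ℝ :=
  ((Matrix.of fun i j => (X (v i j) : MvPolynomial σ ℝ)).updateRow (Fin.last k)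
    (Function.update (fun j => (X (v (Fin.last k) j) : MvPolynomial σ ℝ)) (Fin.last k) 0)).det

lemma gdet_pivot (v : Fin (k + 1) → Fin (k + 1) → σ) :
    gdet v = pf v * X (v (Fin.last k) (Fin.last k)) + pg v := by
  have := det_pivot (Matrix.of fun i j => (X (v i j) : MvPolynomial σ ℝ))
  exact this

lemma pf_mem (v : Fin (k + 1) → Fin (k + 1) → σ)
    (hv : Function.Injective fun p : Fin (k + 1) × Fin (k + 1) => v p.1 p.2) :
    pf v ∈ supported ℝ ({v (Fin.last k) (Fin.last k)}ᶜ : Set σ) := by
  unfold pf
  apply det_mem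
  intro i j
  rw [updateRow_apply]
  split_ifs with h
  · rw [Pi.single_apply]
    split_ifs
    · exact Subalgebra.one_mem _
    · exact Subalgebra.zero_mem _
  · apply X_mem
    intro e
    have := hv (a₁ := (i, j)) (a₂ := (Fin.last k, Fin.last k)) e
    simp only [Prod.mk.injEq] at this
    exact h this.1

lemma pg_mem (v : Fin (k + 1) → Fin (k + 1) → σ)
    (hv : Function.Injective fun p : Fin (k + 1) × Fin (k + 1) => v p.1 p.2) :
    pg v ∈ supported ℝ ({v (Fin.last k) (Fin.last k)}ᶜ : Set σ) := by
  unfold pg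
  apply det_mem
  intro i j
  rw [updateRow_apply]
  split_ifs with h
  · by_cases hj : j = Fin.last k
    · subst hj
      rw [Function.update_self]
      exact Subalgebra.zero_mem _
    · rw [Function.update_of_ne hj]
      apply X_mem
      intro e
      have := hv (a₁ := (Fin.last k, j)) (a₂ := (Fin.last k, Fin.last k)) e
      simp only [Prod.mk.injEq] at this
      exact hj this.2
  · apply X_mem
    intro e
    have := hv (a₁ := (i, j)) (a₂ := (Fin.last k, Fin.last k)) e
    simp only [Prod.mk.injEq] at this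
    exact h this.1

/-- The value matrix. -/
def vmat (v : Fin (k + 1) → Fin (k + 1) → σ) (z : σ → ℝ) : Matrix (Fin (k + 1)) (Fin (k + 1)) ℝ :=
  Matrix.of fun i j => z (v i j)

lemma eval_gdet' (v : Fin (k + 1) → Fin (k + 1) → σ) (z : σ → ℝ) :
    eval z (gdet v) = (vmat v z).det := eval_gdet v z

lemma eval_pf (v : Fin (k + 1) → Fin (k + 1) → σ) (z : σ → ℝ) :
    eval z (pf v) = (vmat v z).adjugate (Fin.last k) (Fin.last k) := by
  unfold pf
  rw [RingHom.map_det, adjugate_apply]
  congr 1
  ext i j
  rw [RingHom.mapMatrix_apply, map_apply, updateRow_apply, updateRow_apply]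
  split_ifs with h
  · rw [Pi.single_apply, Pi.single_apply]
    split_ifs <;> simp
  · simp [vmat]

lemma continuous_adj (v : Fin (k + 1) → Fin (k + 1) → σ) (i j : Fin (k + 1)) :
    Continuous fun z : σ → ℝ => (vmat v z).adjugate i j := by
  have h : Continuous fun z : σ → ℝ => vmat v z := by
    apply continuous_matrix
    intro i j
    exact continuous_apply _
  exact (h.matrix_adjugate).matrix_elem i j

/-! ### The base matrix -/

/-- The base matrix. -/
def baseMat (k : ℕ) : Matrix (Fin (k + 1)) (Fin (k + 1)) ℝ :=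
  Matrix.of fun i j => if j = Fin.last k then 0 else if i = j then 1 else
    if i = Fin.last k then -1 else 0

lemma det_base (k : ℕ) : (baseMat k).det = 0 := by
  apply det_eq_zero_of_column_eq_zero (Fin.last k)
  intro i
  simp [baseMat]

lemma adj_base_last (k : ℕ) : (baseMat k).adjugate (Fin.last k) (Fin.last k) = 1 := by
  rw [adjugate_apply]
  have : (baseMat k).updateRow (Fin.last k) (Pi.single (Fin.last k) 1) = 1 := by
    ext i j
    rw [updateRow_apply, one_apply]
    split_ifs with h1 h2 h2
    · rw [← h2, h1]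
      simp
    · rw [Pi.single_apply, if_neg]
      rintro rfl
      exact h2 h1
    · subst h2
      simp [baseMat, h1]
    · simp only [baseMat, of_apply]
      rw [if_neg h2, if_neg h1]
      split_ifs <;> rfl
  rw [this, det_one]

lemma adj_base (k : ℕ) (i j : Fin (k + 1)) :
    (baseMat k).adjugate i j = if i = Fin.last k then 1 else 0 := by
  split_ifs with h
  · subst h
    by_cases hj : j = Fin.last k
    · subst hj
      exact adj_base_last k
    · have h1 := congrFun (congrFun (adjugate_mul (baseMat k)) (Fin.last k)) j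
      rw [det_base, zero_smul, mul_apply] at h1
      have h2 : ∀ x, (baseMat k).adjugate (Fin.last k) x * baseMat k x j =
          (if x = j then (baseMat k).adjugate (Fin.last k) x else 0) +
          (if x = Fin.last k then - (baseMat k).adjugate (Fin.last k) x else 0) := by
        intro x
        simp only [baseMat, of_apply]
        rw [if_neg hj]
        by_cases hx : x = j
        · subst hx
          rw [if_pos rfl, if_pos rfl, if_neg hj]
          ring
        · rw [if_neg hx, if_neg hx]
          split_ifs <;> ring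
      rw [Finset.sum_congr rfl fun x _ => h2 x, Finset.sum_add_distrib,
        Finset.sum_ite_eq', Finset.sum_ite_eq', if_pos (Finset.mem_univ _),
        if_pos (Finset.mem_univ _), adj_base_last] at h1
      simp only [Matrix.zero_apply] at h1
      linarith
  · rw [adjugate_apply]
    apply det_eq_zero_of_column_eq_zero (Fin.last k)
    intro x
    rw [updateRow_apply]
    split_ifs
    · rw [Pi.single_apply, if_neg]
      exact fun e => h e.symm
    · simp [baseMat]

end Pool.Agent.H682.NA
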